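import Mathlib

set_option autoImplicit false

namespace Pool.Agent.H367R3.ColGraph

open Finset

variable (R : ℕ → ℕ → Bool)

/-- The graph on `Fin n` with back-adjacency `R`. -/
def GR (n : ℕ) : SimpleGraph (Fin n) where
  Adj i j := (j < i ∧ R i j = true) ∨ (i < j ∧ R j i = true)
  symm := ⟨fun _ _ h => h.symm⟩
  loopless := ⟨fun i h => by
    rcases h with h | h
    · exact lt_irrefl _ h.1
    · exact lt_irrefl _ h.1⟩

/-- Proper maps. -/
def Proper (k n : ℕ) (f : Fin n → Fin k) : Prop :=
  ∀ i j : Fin n, j < i → R i j = true → f i ≠ f j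

instance (k n : ℕ) (f : Fin n → Fin k) : Decidable (Proper R k n f) := by
  unfold Proper
  infer_instance

/-- Back degree. -/
def dg (n : ℕ) : ℕ := ((univ : Finset (Fin n)).filter (fun j : Fin n => R n j = true)).card

/-- proper colourings -/
def PC (k n : ℕ) : Finset (Fin n → Fin k) := univ.filter (fun f => Proper R k n f)

/-- pairs of proper colourings differing exactly at `u` -/
def DD (k n : ℕ) (u : Fin n) : Finset ((Fin n → Fin k) × (Fin n → Fin k)) :=
  univ.filter (fun p => Proper R k n p.1 ∧ Proper R k n p.2 ∧ p.1 u ≠ p.2 u ∧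
    ∀ w, w ≠ u → p.1 w = p.2 w)

/-- restriction -/
def res {k n : ℕ} (f : Fin (n + 1) → Fin k) : Fin n → Fin k := fun i => f i.castSucc

variable {R}

theorem proper_succ {k n : ℕ} (f : Fin (n + 1) → Fin k) :
    Proper R k (n + 1) f ↔ Proper R k n (res f) ∧
      ∀ j : Fin n, R n j = true → f (Fin.last n) ≠ res f j := by
  constructor
  · intro h
    refine ⟨?_, ?_⟩
    · intro i j hij hR
      exact h i.castSucc j.castSucc (Fin.castSucc_lt_castSucc_iff.2 hij) (by simpa using hR)
    · intro j hR
      exact h (Fin.last n) j.castSucc (Fin.castSucc_lt_last j) (by simpa using hR)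
  · rintro ⟨h1, h2⟩ i j hij hR
    refine Fin.lastCases ?_ (fun i => ?_) i (motive := fun i => j < i → R i j = true → f i ≠ f j)
      hij hR
    · intro hij hR
      refine Fin.lastCases ?_ (fun j => ?_) j
        (motive := fun j => j < Fin.last n → R (Fin.last n) j = true → f (Fin.last n) ≠ f j)
        hij hR
      · intro h
        exact absurd h (lt_irrefl _)
      · intro _ hR
        exact h2 j (by simpa using hR)
    · intro hij hR
      refine Fin.lastCases ?_ (fun j => ?_) j
        (motive := fun j => j < i.castSucc → R i.castSucc j = true → f i.castSucc ≠ f j)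
        hij hR
      · intro h
        exact absurd h (not_lt_of_gt (Fin.castSucc_lt_last i))
      · intro hij hR
        exact h1 i j (Fin.castSucc_lt_castSucc_iff.1 hij) (by simpa using hR)

theorem card_fiber {k n : ℕ} (g : Fin n → Fin k) (Q : Fin k → Prop) [DecidablePred Q] :
    ((univ : Finset (Fin (n + 1) → Fin k)).filter
      (fun f => res f = g ∧ Q (f (Fin.last n)))).card = (univ.filter Q).card := by
  apply Finset.card_nbij' (fun f => f (Fin.last n)) (fun a => Fin.snoc (α := fun _ => Fin k) g a)
  · intro f hf
    simp only [coe_filter, mem_univ, true_and, Set.mem_ofPred_eq] at hf ⊢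
    exact hf.2
  · intro a ha
    simp only [coe_filter, mem_univ, true_and, Set.mem_ofPred_eq] at ha ⊢
    refine ⟨?_, ?_⟩
    · funext i
      simp [res]
    · simpa using ha
  · intro f hf
    simp only [coe_filter, mem_univ, true_and, Set.mem_ofPred_eq] at hf
    funext i
    refine Fin.lastCases ?_ (fun i => ?_) i
    · simp
    · simp only [Fin.snoc_castSucc]
      rw [← hf.1]
      rfl
  · intro a _
    simp

theorem card_avoid {k : ℕ} (S : Finset (Fin k)) :
    ((univ : Finset (Fin k)).filter (fun a => a ∉ S)).card = k - S.card := by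
  have : (univ : Finset (Fin k)).filter (fun a => a ∉ S) = Sᶜ := by
    ext a
    simp
  rw [this, card_compl, Fintype.card_fin]

/-- The back-neighbours form a clique. -/
def PEO (R : ℕ → ℕ → Bool) (n : ℕ) : Prop :=
  ∀ j, j < n → ∀ l, l < j → R n j = true → R n l = true → R j l = true

theorem inj_on_back {k n : ℕ} (hP : PEO R n) {g : Fin n → Fin k} (hg : Proper R k n g) :
    Set.InjOn g ((univ : Finset (Fin n)).filter (fun j : Fin n => R n j = true) : Set (Fin n)) := by
  intro a ha b hb hab
  simp only [coe_filter, mem_univ, true_and, Set.mem_ofPred_eq] at ha hb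
  rcases lt_trichotomy a b with h | h | h
  · exact absurd hab.symm (hg b a h (hP b b.2 a h hb ha))
  · exact h
  · exact absurd hab (hg a b h (hP a a.2 b h ha hb))

theorem card_PC_succ {k n : ℕ} (hP : PEO R n) :
    (PC R k (n + 1)).card = (PC R k n).card * (k - dg R n) := by
  have hmaps : ∀ f ∈ PC R k (n + 1), res f ∈ PC R k n := by
    intro f hf
    simp only [PC, mem_filter, mem_univ, true_and] at hf ⊢
    exact ((proper_succ f).1 hf).1
  rw [Finset.card_eq_sum_card_fiberwise (f := res) (t := PC R k n) hmaps]
  rw [Finset.sum_const_nat (m := k - dg R n)]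
  intro g hg
  simp only [PC, mem_filter, mem_univ, true_and] at hg
  set N := (univ : Finset (Fin n)).filter (fun j : Fin n => R n j = true) with hN
  have hset : (PC R k (n + 1)).filter (fun f => res f = g) =
      (univ : Finset (Fin (n + 1) → Fin k)).filter
        (fun f => res f = g ∧ f (Fin.last n) ∉ N.image g) := by
    ext f
    simp only [PC, mem_filter, mem_univ, true_and, proper_succ]
    constructor
    · rintro ⟨⟨_, h2⟩, h3⟩
      refine ⟨h3, ?_⟩
      intro h
      obtain ⟨j, hj, hj2⟩ := mem_image.1 h
      rw [hN, mem_filter] at hj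
      apply h2 j hj.2
      rw [h3, hj2]
    · rintro ⟨h3, h4⟩
      refine ⟨⟨by rw [h3]; exact hg, ?_⟩, h3⟩
      intro j hj hj2
      apply h4
      rw [hj2, h3]
      exact mem_image_of_mem _ (by rw [hN, mem_filter]; exact ⟨mem_univ _, hj⟩)
  rw [hset, card_fiber g (fun a => a ∉ N.image g), card_avoid,
    Finset.card_image_of_injOn (inj_on_back hP hg)]
  rfl

theorem card_DD_last {k n : ℕ} (hP : PEO R n) :
    (DD R k (n + 1) (Fin.last n)).card =
      (PC R k n).card * ((k - dg R n) * (k - dg R n - 1)) := by
  have hmaps : ∀ p ∈ DD R k (n + 1) (Fin.last n), res p.1 ∈ PC R k n := by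
    intro p hp
    simp only [DD, PC, mem_filter, mem_univ, true_and] at hp ⊢
    exact ((proper_succ _).1 hp.1).1
  rw [Finset.card_eq_sum_card_fiberwise
    (f := fun p : (Fin (n + 1) → Fin k) × (Fin (n + 1) → Fin k) => res p.1) (t := PC R k n) hmaps]
  rw [Finset.sum_const_nat (m := (k - dg R n) * (k - dg R n - 1))]
  intro g hg
  simp only [PC, mem_filter, mem_univ, true_and] at hg
  set N := (univ : Finset (Fin n)).filter (fun j : Fin n => R n j = true) with hN
  set S := (univ : Finset (Fin k)).filter (fun a => a ∉ N.image g) with hS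
  have hScard : S.card = k - dg R n := by
    rw [hS, card_avoid, Finset.card_image_of_injOn (inj_on_back hP hg)]
    rfl
  have hQ : ∀ f : Fin (n + 1) → Fin k, res f = g →
      (Proper R k (n + 1) f ↔ f (Fin.last n) ∈ S) := by
    intro f hf
    rw [proper_succ, hf, hS, mem_filter]
    constructor
    · rintro ⟨_, h2⟩
      refine ⟨mem_univ _, ?_⟩
      intro h
      obtain ⟨j, hj, hj2⟩ := mem_image.1 h
      rw [hN, mem_filter] at hj
      exact h2 j hj.2 hj2.symm
    · rintro ⟨_, h4⟩
      refine ⟨hg, ?_⟩
      intro j hj hj2
      apply h4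
      rw [hj2]
      exact mem_image_of_mem _ (by rw [hN, mem_filter]; exact ⟨mem_univ _, hj⟩)
  have hcard : ((DD R k (n + 1) (Fin.last n)).filter (fun p => res p.1 = g)).card =
      S.offDiag.card := by
    apply Finset.card_nbij' (fun p => (p.1 (Fin.last n), p.2 (Fin.last n)))
      (fun a => (Fin.snoc (α := fun _ => Fin k) g a.1, Fin.snoc (α := fun _ => Fin k) g a.2))
    · intro p hp
      simp only [DD, coe_filter, mem_filter, mem_univ, true_and, Set.mem_ofPred_eq] at hp
      obtain ⟨⟨h1, h2, h3, h4⟩, h5⟩ := hp
      have h6 : res p.2 = g := by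
        rw [← h5]
        funext i
        exact (h4 i.castSucc (ne_of_lt (Fin.castSucc_lt_last i))).symm
      rw [mem_coe, mem_offDiag]
      exact ⟨(hQ _ h5).1 h1, (hQ _ h6).1 h2, h3⟩
    · intro a ha
      rw [mem_coe, mem_offDiag] at ha
      obtain ⟨h1, h2, h3⟩ := ha
      have e1 : res (Fin.snoc (α := fun _ => Fin k) g a.1 : Fin (n + 1) → Fin k) = g := by
        funext i
        simp [res]
      have e2 : res (Fin.snoc (α := fun _ => Fin k) g a.2 : Fin (n + 1) → Fin k) = g := by
        funext i
        simp [res]
      simp only [DD, coe_filter, mem_filter, mem_univ, true_and, Set.mem_ofPred_eq]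
      refine ⟨⟨(hQ _ e1).2 (by simpa using h1), (hQ _ e2).2 (by simpa using h2),
        by simpa using h3, ?_⟩, e1⟩
      intro w
      refine Fin.lastCases ?_ (fun i => ?_) w
      · intro h
        exact absurd rfl h
      · intro _
        simp
    · intro p hp
      simp only [DD, coe_filter, mem_filter, mem_univ, true_and, Set.mem_ofPred_eq] at hp
      obtain ⟨⟨h1, h2, h3, h4⟩, h5⟩ := hp
      have h6 : res p.2 = g := by
        rw [← h5]
        funext i
        exact (h4 i.castSucc (ne_of_lt (Fin.castSucc_lt_last i))).symm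
      apply Prod.ext
      · funext i
        refine Fin.lastCases ?_ (fun i => ?_) i
        · simp
        · simp only [Fin.snoc_castSucc]
          rw [← h5]
          rfl
      · funext i
        refine Fin.lastCases ?_ (fun i => ?_) i
        · simp
        · simp only [Fin.snoc_castSucc]
          rw [← h6]
          rfl
    · intro a _
      simp
  rw [hcard, offDiag_card, hScard]
  rcases Nat.eq_zero_or_pos (k - dg R n) with h | h
  · rw [h]
  · obtain ⟨m, hm⟩ : ∃ m, k - dg R n = m + 1 := ⟨k - dg R n - 1, by omega⟩
    rw [hm]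
    have : (m + 1) * (m + 1) - (m + 1) = (m + 1) * m := by
      rw [Nat.mul_succ, Nat.add_sub_cancel]
    rw [this]
    simp

theorem card_DD_succ {k n : ℕ} (hP : PEO R n) (u : Fin n) :
    (DD R k (n + 1) u.castSucc).card =
      (DD R k n u).card * (k - (dg R n + if R n u = true then 1 else 0)) := by
  have hmaps : ∀ p ∈ DD R k (n + 1) u.castSucc, (res p.1, res p.2) ∈ DD R k n u := by
    intro p hp
    simp only [DD, mem_filter, mem_univ, true_and] at hp ⊢
    obtain ⟨h1, h2, h3, h4⟩ := hp
    refine ⟨((proper_succ _).1 h1).1, ((proper_succ _).1 h2).1, h3, ?_⟩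
    intro w hw
    exact h4 w.castSucc (fun h => hw (Fin.castSucc_injective _ h))
  rw [Finset.card_eq_sum_card_fiberwise
    (f := fun p : (Fin (n + 1) → Fin k) × (Fin (n + 1) → Fin k) => (res p.1, res p.2))
    (t := DD R k n u) hmaps]
  rw [Finset.sum_const_nat (m := k - (dg R n + if R n u = true then 1 else 0))]
  rintro ⟨g1, g2⟩ hg
  simp only [DD, mem_filter, mem_univ, true_and] at hg
  obtain ⟨hg1, hg2, hg3, hg4⟩ := hg
  set N := (univ : Finset (Fin n)).filter (fun j : Fin n => R n j = true) with hN
  set S := N.image g1 ∪ N.image g2 with hS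
  have hcard : ((DD R k (n + 1) u.castSucc).filter (fun p => (res p.1, res p.2) = (g1, g2))).card =
      ((univ : Finset (Fin k)).filter (fun a => a ∉ S)).card := by
    apply Finset.card_nbij' (fun p => p.1 (Fin.last n))
      (fun a => (Fin.snoc (α := fun _ => Fin k) g1 a, Fin.snoc (α := fun _ => Fin k) g2 a))
    · intro p hp
      simp only [DD, coe_filter, mem_filter, mem_univ, true_and, Set.mem_ofPred_eq,
        Prod.mk.injEq] at hp ⊢
      obtain ⟨⟨h1, h2, h3, h4⟩, h5, h6⟩ := hp
      have h7 : p.1 (Fin.last n) = p.2 (Fin.last n) :=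
        h4 _ (ne_of_gt (Fin.castSucc_lt_last u))
      rw [hS, mem_union, not_or]
      constructor
      · intro h
        obtain ⟨j, hj, hj2⟩ := mem_image.1 h
        rw [hN, mem_filter] at hj
        apply ((proper_succ _).1 h1).2 j hj.2
        rw [h5, hj2]
      · intro h
        obtain ⟨j, hj, hj2⟩ := mem_image.1 h
        rw [hN, mem_filter] at hj
        apply ((proper_succ _).1 h2).2 j hj.2
        rw [h6, hj2, h7]
    · intro a ha
      simp only [coe_filter, mem_univ, true_and, Set.mem_ofPred_eq, hS, mem_union, not_or] at ha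
      have e1 : res (Fin.snoc (α := fun _ => Fin k) g1 a : Fin (n + 1) → Fin k) = g1 := by
        funext i
        simp [res]
      have e2 : res (Fin.snoc (α := fun _ => Fin k) g2 a : Fin (n + 1) → Fin k) = g2 := by
        funext i
        simp [res]
      simp only [DD, coe_filter, mem_filter, mem_univ, true_and, Set.mem_ofPred_eq, Prod.mk.injEq]
      refine ⟨⟨?_, ?_, ?_, ?_⟩, e1, e2⟩
      · rw [proper_succ, e1]
        refine ⟨hg1, ?_⟩
        intro j hj hj2
        apply ha.1
        rw [Fin.snoc_last] at hj2
        rw [hj2]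
        exact mem_image_of_mem _ (by rw [hN, mem_filter]; exact ⟨mem_univ _, hj⟩)
      · rw [proper_succ, e2]
        refine ⟨hg2, ?_⟩
        intro j hj hj2
        apply ha.2
        rw [Fin.snoc_last] at hj2
        rw [hj2]
        exact mem_image_of_mem _ (by rw [hN, mem_filter]; exact ⟨mem_univ _, hj⟩)
      · simpa using hg3
      · intro w
        refine Fin.lastCases ?_ (fun i => ?_) w
        · intro _
          simp
        · intro hw
          simp only [Fin.snoc_castSucc]
          exact hg4 i (fun h => hw (by rw [h]))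
    · intro p hp
      simp only [DD, coe_filter, mem_filter, mem_univ, true_and, Set.mem_ofPred_eq,
        Prod.mk.injEq] at hp
      obtain ⟨⟨h1, h2, h3, h4⟩, h5, h6⟩ := hp
      have h7 : p.1 (Fin.last n) = p.2 (Fin.last n) :=
        h4 _ (ne_of_gt (Fin.castSucc_lt_last u))
      apply Prod.ext
      · funext i
        refine Fin.lastCases ?_ (fun i => ?_) i
        · simp
        · simp only [Fin.snoc_castSucc]
          rw [← h5]
          rfl
      · funext i
        refine Fin.lastCases ?_ (fun i => ?_) i
        · simp [h7]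
        · simp only [Fin.snoc_castSucc]
          rw [← h6]
          rfl
    · intro a _
      simp
  rw [hcard, card_avoid]
  congr 1
  -- cardinality of the union
  by_cases hu : R n u = true
  · simp only [hu, if_true]
    have huN : u ∈ N := by rw [hN, mem_filter]; exact ⟨mem_univ _, hu⟩
    have hSeq : S = insert (g2 u) (N.image g1) := by
      rw [hS]
      ext a
      rw [mem_union, mem_insert, mem_image, mem_image]
      constructor
      · rintro (h | ⟨j, hj, rfl⟩)
        · exact Or.inr h
        · by_cases hju : j = u
          · left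
            rw [hju]
          · right
            exact ⟨j, hj, hg4 j hju⟩
      · rintro (h | h)
        · right
          exact ⟨u, huN, h.symm⟩
        · exact Or.inl h
    have hnot : g2 u ∉ N.image g1 := by
      intro h
      obtain ⟨j, hj, hj2⟩ := mem_image.1 h
      by_cases hju : j = u
      · rw [hju] at hj2
        exact hg3 hj2
      · rw [hg4 j hju] at hj2
        exact hju (inj_on_back hP hg2 (by exact_mod_cast hj) (by exact_mod_cast huN) hj2)
    rw [hSeq, card_insert_of_notMem hnot, Finset.card_image_of_injOn (inj_on_back hP hg1)]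
    rfl
  · simp only [hu]
    have hSeq : S = N.image g1 := by
      rw [hS]
      ext a
      rw [mem_union, mem_image, mem_image]
      constructor
      · rintro (h | ⟨j, hj, rfl⟩)
        · exact h
        · have hju : j ≠ u := by
            rintro rfl
            rw [hN, mem_filter] at hj
            exact hu hj.2
          exact ⟨j, hj, hg4 j hju⟩
      · intro h
        exact Or.inl h
    rw [hSeq, Finset.card_image_of_injOn (inj_on_back hP hg1)]
    simp [dg, hN]

end Pool.Agent.H367R3.ColGraph
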