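import Pool.Agent.H367R3.ColGraph

set_option autoImplicit false

namespace Pool.Agent.H367R3.ColGraph

open Finset

variable {R : ℕ → ℕ → Bool}

/-- list of shifts for colourings -/
def Cl (d : ℕ → ℕ) : ℕ → List ℕ
  | 0 => []
  | (n + 1) => d n :: Cl d n

/-- list of shifts for pairs differing at `u` -/
def Dl (R : ℕ → ℕ → Bool) (d : ℕ → ℕ) (u : ℕ) : ℕ → List ℕ
  | 0 => []
  | (n + 1) => if u < n then (d n + (if R n u = true then 1 else 0)) :: Dl R d u n
      else d n :: (d n + 1) :: Cl d n

def val (k : ℕ) (l : List ℕ) : ℕ := (l.map (fun j => k - j)).prod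

theorem card_PC {k : ℕ} {d : ℕ → ℕ} : ∀ n : ℕ, (∀ i < n, PEO R i) → (∀ i < n, dg R i = d i) →
    (PC R k n).card = val k (Cl d n)
  | 0, _, _ => by
      have : PC R k 0 = univ := by
        ext f
        simp only [PC, mem_filter, mem_univ, true_and, iff_true]
        intro i
        exact i.elim0
      rw [this]
      simp [Cl, val]
  | (n + 1), hP, hd => by
      rw [card_PC_succ (hP n (Nat.lt_succ_self n)),
        card_PC n (fun i hi => hP i (Nat.lt_succ_of_lt hi)) (fun i hi => hd i (Nat.lt_succ_of_lt hi)),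
        hd n (Nat.lt_succ_self n)]
      simp only [Cl, val, List.map_cons, List.prod_cons]
      ring

theorem card_DD {k : ℕ} {d : ℕ → ℕ} : ∀ (n : ℕ) (u : Fin n), (∀ i < n, PEO R i) →
    (∀ i < n, dg R i = d i) → (DD R k n u).card = val k (Dl R d u n)
  | 0, u, _, _ => u.elim0
  | (n + 1), u, hP, hd => by
      refine Fin.lastCases ?_ (fun u => ?_) u
      · rw [card_DD_last (hP n (Nat.lt_succ_self n)),
          card_PC (d := d) n (fun i hi => hP i (Nat.lt_succ_of_lt hi))
            (fun i hi => hd i (Nat.lt_succ_of_lt hi)),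
          hd n (Nat.lt_succ_self n)]
        simp only [Dl, Fin.val_last, lt_irrefl, if_false, val, List.map_cons, List.prod_cons]
        rw [Nat.sub_sub]
        ring
      · rw [card_DD_succ (hP n (Nat.lt_succ_self n)) u,
          card_DD n u (fun i hi => hP i (Nat.lt_succ_of_lt hi))
            (fun i hi => hd i (Nat.lt_succ_of_lt hi)), hd n (Nat.lt_succ_self n)]
        have hu : (u : ℕ) < n := u.2
        rw [Fin.val_castSucc]
        simp only [Dl, hu, if_true, val, List.map_cons, List.prod_cons]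
        ring

theorem card_coloring (k n : ℕ) : Nat.card ((GR R n).Coloring (Fin k)) = (PC R k n).card := by
  have h : Nat.card ((GR R n).Coloring (Fin k)) = Nat.card {f // f ∈ PC R k n} := by
    apply Nat.card_congr
    refine Equiv.ofBijective (fun c => ⟨fun i => c i, ?_⟩) ⟨?_, ?_⟩
    · simp only [PC, mem_filter, mem_univ, true_and]
      intro i j hij hR
      exact c.valid (Or.inl ⟨hij, hR⟩)
    · intro c c' hcc
      apply RelHom.ext
      intro i
      exact congrFun (Subtype.ext_iff.1 hcc) i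
    · rintro ⟨f, hf⟩
      simp only [PC, mem_filter, mem_univ, true_and] at hf
      refine ⟨SimpleGraph.Coloring.mk f ?_, ?_⟩
      · intro i j hij
        rcases hij with ⟨h1, h2⟩ | ⟨h1, h2⟩
        · exact hf i j h1 h2
        · exact (hf j i h1 h2).symm
      · rfl
  rw [h]
  simp

theorem card_pairs (k n : ℕ) :
    Nat.card {p : (GR R n).Coloring (Fin k) × (GR R n).Coloring (Fin k) //
      Nat.card {v : Fin n // p.1 v ≠ p.2 v} = 1} = ∑ u : Fin n, (DD R k n u).card := by
  classical
  let T : Finset ((Fin n → Fin k) × (Fin n → Fin k)) :=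
    univ.filter (fun p => Proper R k n p.1 ∧ Proper R k n p.2 ∧
      Nat.card {v : Fin n // p.1 v ≠ p.2 v} = 1)
  have h : Nat.card {p : (GR R n).Coloring (Fin k) × (GR R n).Coloring (Fin k) //
      Nat.card {v : Fin n // p.1 v ≠ p.2 v} = 1} = Nat.card {p // p ∈ T} := by
    apply Nat.card_congr
    refine Equiv.ofBijective (fun c => ⟨(fun i => c.1.1 i, fun i => c.1.2 i), ?_⟩) ⟨?_, ?_⟩
    · simp only [T, mem_filter, mem_univ, true_and]
      refine ⟨?_, ?_, c.2⟩
      · intro i j hij hR
        exact c.1.1.valid (Or.inl ⟨hij, hR⟩)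
      · intro i j hij hR
        exact c.1.2.valid (Or.inl ⟨hij, hR⟩)
    · rintro ⟨⟨c1, c2⟩, hc⟩ ⟨⟨c1', c2'⟩, hc'⟩ hcc
      have h1 := Subtype.ext_iff.1 hcc
      have h2 := congrArg Prod.fst h1
      have h3 := congrArg Prod.snd h1
      apply Subtype.ext
      apply Prod.ext
      · apply RelHom.ext
        intro i
        exact congrFun h2 i
      · apply RelHom.ext
        intro i
        exact congrFun h3 i
    · rintro ⟨⟨f, f'⟩, hf⟩
      simp only [T, mem_filter, mem_univ, true_and] at hf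
      obtain ⟨h1, h2, h3⟩ := hf
      refine ⟨⟨(SimpleGraph.Coloring.mk f ?_, SimpleGraph.Coloring.mk f' ?_), ?_⟩, ?_⟩
      · intro i j hij
        rcases hij with ⟨h4, h5⟩ | ⟨h4, h5⟩
        · exact h1 i j h4 h5
        · exact (h1 j i h4 h5).symm
      · intro i j hij
        rcases hij with ⟨h4, h5⟩ | ⟨h4, h5⟩
        · exact h2 i j h4 h5
        · exact (h2 j i h4 h5).symm
      · exact h3
      · rfl
  rw [h]
  have hT : T = univ.biUnion (fun u => DD R k n u) := by
    ext ⟨f, f'⟩
    simp only [T, DD, mem_filter, mem_univ, true_and, mem_biUnion]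
    constructor
    · rintro ⟨h1, h2, h3⟩
      rw [Nat.card_eq_one_iff_unique] at h3
      obtain ⟨h4, ⟨u, hu⟩⟩ := h3
      refine ⟨u, h1, h2, hu, ?_⟩
      intro w hw
      by_contra hne
      have := @Subsingleton.elim _ h4 (⟨w, hne⟩ : {v : Fin n // f v ≠ f' v}) ⟨u, hu⟩
      exact hw (congrArg Subtype.val this)
    · rintro ⟨u, h1, h2, h3, h4⟩
      refine ⟨h1, h2, ?_⟩
      rw [Nat.card_eq_one_iff_unique]
      refine ⟨⟨?_⟩, ⟨u, h3⟩⟩
      rintro ⟨a, ha⟩ ⟨b, hb⟩
      apply Subtype.ext
      have ha' : a = u := by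
        by_contra hne
        exact ha (h4 a hne)
      have hb' : b = u := by
        by_contra hne
        exact hb (h4 b hne)
      show a = b
      rw [ha', hb']
  have h5 : Nat.card {p // p ∈ T} = T.card := by simp
  rw [h5, hT, Finset.card_biUnion]
  intro u _ u' _ huu
  rw [Function.onFun, Finset.disjoint_left]
  rintro ⟨f, f'⟩ h1 h2
  simp only [DD, mem_filter, mem_univ, true_and] at h1 h2
  exact h2.2.2.1 (h1.2.2.2 u' (Ne.symm huu))

/-- counts of the shifts -/
def cnt (l : List ℕ) : ℕ × ℕ × ℕ × ℕ × ℕ :=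
  (l.count 0, l.count 1, l.count 2, l.count 3, l.count 4)

def cval (k : ℕ) (e : ℕ × ℕ × ℕ × ℕ × ℕ) : ℕ :=
  k ^ e.1 * (k - 1) ^ e.2.1 * (k - 2) ^ e.2.2.1 * (k - 3) ^ e.2.2.2.1 * (k - 4) ^ e.2.2.2.2

theorem val_eq_cval (k : ℕ) : ∀ l : List ℕ, (∀ x ∈ l, x < 5) → val k l = cval k (cnt l)
  | [], _ => by simp [val, cval, cnt]
  | (x :: l), h => by
      have ih := val_eq_cval k l (fun y hy => h y (List.mem_cons_of_mem _ hy))
      have hx := h x List.mem_cons_self
      have h1 : val k (x :: l) = (k - x) * val k l := by simp [val]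
      rw [h1, ih]
      have hx' : x = 0 ∨ x = 1 ∨ x = 2 ∨ x = 3 ∨ x = 4 := by omega
      rcases hx' with rfl | rfl | rfl | rfl | rfl <;> simp [cnt, cval] <;> ring

end Pool.Agent.H367R3.ColGraph
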