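import Mathlib

set_option autoImplicit false

namespace Pool.Agent.H367R3

open Set

universe u

section Rank

variable {V : Type u} (G : SimpleGraph V)

/-- Binary splitting rank at least `h` of a set `S`, splitting vertices taken in `Y`. -/
def TR (Y : Set V) : ℕ → Set V → Prop
  | 0, S => S.Nonempty
  | (h + 1), S => ∃ y ∈ Y, TR Y h (S ∩ G.neighborSet y) ∧ TR Y h (S \ G.neighborSet y)

theorem TR_mono_set {Y : Set V} : ∀ (h : ℕ) {S S' : Set V}, S ⊆ S' → TR G Y h S → TR G Y h S'
  | 0, _, _, hS, hT => Set.Nonempty.mono hS hT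
  | (h + 1), _, _, hS, hT => by
      obtain ⟨y, hy, h1, h2⟩ := hT
      exact ⟨y, hy, TR_mono_set h (Set.inter_subset_inter_left _ hS) h1,
        TR_mono_set h (Set.sdiff_subset_sdiff_left hS) h2⟩

theorem TR_mono_node {Y Y' : Set V} (hY : Y ⊆ Y') :
    ∀ (h : ℕ) {S : Set V}, TR G Y h S → TR G Y' h S
  | 0, _, hT => hT
  | (h + 1), _, hT => by
      obtain ⟨y, hy, h1, h2⟩ := hT
      exact ⟨y, hY hy, TR_mono_node hY h h1, TR_mono_node hY h h2⟩

theorem TR_nonempty {Y : Set V} : ∀ (h : ℕ) {S : Set V}, TR G Y h S → S.Nonempty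
  | 0, _, hT => hT
  | (h + 1), _, hT => by
      obtain ⟨y, _, h1, _⟩ := hT
      exact (TR_nonempty h h1).mono Set.inter_subset_left

theorem TR_partition {N P : Set V} : ∀ (s a b : ℕ), a + b = s → ∀ {S : Set V},
    TR G (N ∪ P) s S → TR G N a S ∨ TR G P b S := by
  intro s
  induction s with
  | zero =>
    intro a b hab S hT
    have ha : a = 0 := by omega
    subst ha
    exact Or.inl (TR_nonempty G _ hT)
  | succ s ih =>
    intro a b hab S hT
    rcases Nat.eq_zero_or_pos a with ha | ha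
    · subst ha
      exact Or.inl (TR_nonempty G _ hT)
    rcases Nat.eq_zero_or_pos b with hb | hb
    · subst hb
      exact Or.inr (TR_nonempty G _ hT)
    obtain ⟨a', rfl⟩ : ∃ a', a = a' + 1 := ⟨a - 1, by omega⟩
    obtain ⟨b', rfl⟩ : ∃ b', b = b' + 1 := ⟨b - 1, by omega⟩
    obtain ⟨y, hy, h1, h2⟩ := hT
    rcases hy with hy | hy
    · rcases ih a' (b' + 1) (by omega) h1 with h3 | h3
      · rcases ih a' (b' + 1) (by omega) h2 with h4 | h4
        · exact Or.inl ⟨y, hy, h3, h4⟩
        · exact Or.inr (TR_mono_set G _ Set.sdiff_subset h4)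
      · exact Or.inr (TR_mono_set G _ Set.inter_subset_left h3)
    · rcases ih (a' + 1) b' (by omega) h1 with h3 | h3
      · exact Or.inl (TR_mono_set G _ Set.inter_subset_left h3)
      · rcases ih (a' + 1) b' (by omega) h2 with h4 | h4
        · exact Or.inl (TR_mono_set G _ Set.sdiff_subset h4)
        · exact Or.inr ⟨y, hy, h3, h4⟩

/-- Heights needed to extract ladders. -/
def ladH : ℕ → ℕ
  | 0 => 0
  | (t + 1) => (ladH t + 1) + (ladH t + 1)

/-- A (semi-induced) half-graph of order `n`. -/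
def HalfGraph (n : ℕ) : Prop :=
  ∃ a b : Fin n → V, ∀ i j, G.Adj (a i) (b j) ↔ i ≤ j

theorem ladder_of_TR : ∀ (s a b : ℕ), a + b = s → ∀ (X Y : Set V), TR G Y (ladH s) X →
    (∃ x y : Fin a → V, (∀ i, x i ∈ X ∧ y i ∈ Y) ∧ ∀ i j, G.Adj (x i) (y j) ↔ i ≤ j) ∨
    (∃ x y : Fin b → V, (∀ i, x i ∈ X ∧ y i ∈ Y) ∧ ∀ i j, G.Adj (x i) (y j) ↔ j < i) := by
  intro s
  induction s with
  | zero =>
    intro a b hab X Y _
    have ha : a = 0 := by omega
    subst ha
    exact Or.inl ⟨Fin.elim0, Fin.elim0, fun i => i.elim0, fun i => i.elim0⟩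
  | succ s ih =>
    intro a b hab X Y hT
    rcases Nat.eq_zero_or_pos a with ha | ha
    · subst ha
      exact Or.inl ⟨Fin.elim0, Fin.elim0, fun i => i.elim0, fun i => i.elim0⟩
    rcases Nat.eq_zero_or_pos b with hb | hb
    · subst hb
      exact Or.inr ⟨Fin.elim0, Fin.elim0, fun i => i.elim0, fun i => i.elim0⟩
    obtain ⟨a', rfl⟩ : ∃ a', a = a' + 1 := ⟨a - 1, by omega⟩
    obtain ⟨b', rfl⟩ : ∃ b', b = b' + 1 := ⟨b - 1, by omega⟩
    obtain ⟨x, hx⟩ := TR_nonempty G _ hT
    have hYY : Y ⊆ {y | y ∈ Y ∧ G.Adj x y} ∪ {y | y ∈ Y ∧ ¬ G.Adj x y} := by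
      intro y hy
      by_cases h : G.Adj x y
      · exact Or.inl ⟨hy, h⟩
      · exact Or.inr ⟨hy, h⟩
    have hT' := TR_mono_node G hYY _ hT
    rcases TR_partition G (ladH (s + 1)) (ladH s + 1) (ladH s + 1) rfl hT' with h1 | h1
    · obtain ⟨y, ⟨hyY, hxy⟩, _, h2⟩ := h1
      rcases ih a' (b' + 1) (by omega) _ _ h2 with ⟨xs, ys, hm, hl⟩ | ⟨xs, ys, hm, hl⟩
      · left
        refine ⟨Fin.cons x xs, Fin.cons y ys, ?_, ?_⟩
        · intro i
          refine Fin.cases ?_ (fun i => ?_) i
          · exact ⟨hx, hyY⟩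
          · simp only [Fin.cons_succ]
            exact ⟨(hm i).1.1, (hm i).2.1⟩
        · intro i j
          refine Fin.cases ?_ (fun i => ?_) i
          · refine Fin.cases ?_ (fun j => ?_) j
            · simp [hxy]
            · simp only [Fin.cons_zero, Fin.cons_succ]
              exact ⟨fun _ => Fin.zero_le _, fun _ => (hm j).2.2⟩
          · refine Fin.cases ?_ (fun j => ?_) j
            · simp only [Fin.cons_zero, Fin.cons_succ]
              constructor
              · intro h
                exact absurd ((G.mem_neighborSet _ _).2 h.symm) (hm i).1.2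
              · intro h
                exact absurd h (by simp)
            · simp only [Fin.cons_succ, Fin.succ_le_succ_iff]
              exact hl i j
      · right
        exact ⟨xs, ys, fun i => ⟨(hm i).1.1, (hm i).2.1⟩, hl⟩
    · obtain ⟨y, ⟨hyY, hxy⟩, h2, _⟩ := h1
      rcases ih (a' + 1) b' (by omega) _ _ h2 with ⟨xs, ys, hm, hl⟩ | ⟨xs, ys, hm, hl⟩
      · left
        exact ⟨xs, ys, fun i => ⟨(hm i).1.1, (hm i).2.1⟩, hl⟩
      · right
        refine ⟨Fin.cons x xs, Fin.cons y ys, ?_, ?_⟩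
        · intro i
          refine Fin.cases ?_ (fun i => ?_) i
          · exact ⟨hx, hyY⟩
          · simp only [Fin.cons_succ]
            exact ⟨(hm i).1.1, (hm i).2.1⟩
        · intro i j
          refine Fin.cases ?_ (fun i => ?_) i
          · refine Fin.cases ?_ (fun j => ?_) j
            · simp [hxy]
            · simp only [Fin.cons_zero, Fin.cons_succ]
              constructor
              · intro h
                exact absurd h (hm j).2.2
              · intro h
                exact absurd h (by simp)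
          · refine Fin.cases ?_ (fun j => ?_) j
            · simp only [Fin.cons_zero, Fin.cons_succ]
              exact ⟨fun _ => Fin.succ_pos _, fun _ => ((G.mem_neighborSet _ _).1 (hm i).1.2).symm⟩
            · simp only [Fin.cons_succ, Fin.succ_lt_succ_iff]
              exact hl i j

/-- `S` is small at level `h`. -/
def Sm (h : ℕ) (S : Set V) : Prop := ¬ TR G Set.univ h S

theorem Sm_univ_of_not_halfGraph {n : ℕ} (hG : ¬ HalfGraph G n) :
    Sm G (ladH (n + (n + 1))) Set.univ := by
  intro hT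
  apply hG
  rcases ladder_of_TR G (n + (n + 1)) n (n + 1) rfl _ _ hT with ⟨x, y, _, h⟩ | ⟨x, y, _, h⟩
  · exact ⟨x, y, h⟩
  · refine ⟨fun i => y i.castSucc, fun j => x j.succ, fun i j => ?_⟩
    rw [SimpleGraph.adj_comm, h]
    exact Fin.castSucc_lt_succ_iff

theorem Sm_mono {h : ℕ} {S S' : Set V} (hS : S ⊆ S') (h' : Sm G h S') : Sm G h S :=
  fun hT => h' (TR_mono_set G h hS hT)

theorem Sm_zero {S : Set V} (h : Sm G 0 S) : S = ∅ := by
  by_contra hne
  exact h (Set.nonempty_iff_ne_empty.2 hne)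

theorem Sm_succ {h : ℕ} {S : Set V} (hS : Sm G (h + 1) S) (y : V) :
    Sm G h (S ∩ G.neighborSet y) ∨ Sm G h (S \ G.neighborSet y) := by
  by_contra hne
  rw [not_or] at hne
  refine hS ⟨y, Set.mem_univ _, ?_, ?_⟩
  · exact not_not.1 hne.1
  · exact not_not.1 hne.2

theorem Sm_succ_of {h : ℕ} {S : Set V} (hS : Sm G h S) : Sm G (h + 1) S := by
  intro hT
  obtain ⟨y, _, h1, _⟩ := hT
  exact hS (TR_mono_set G h Set.inter_subset_left h1)

end Rank

section Cover

variable {V : Type u} (G : SimpleGraph V)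

/-- `S` is covered by at most `K` sets that are small at level `h`. -/
def Cov (h K : ℕ) (S : Set V) : Prop :=
  ∃ F : Finset (Set V), F.card ≤ K ∧ (∀ U ∈ F, Sm G h U) ∧ ∀ a ∈ S, ∃ U ∈ F, a ∈ U

variable {G}

theorem Cov.mono {h K K' : ℕ} {S S' : Set V} (hc : Cov G h K S) (hK : K ≤ K') (hS : S' ⊆ S) :
    Cov G h K' S' := by
  obtain ⟨F, h1, h2, h3⟩ := hc
  exact ⟨F, h1.trans hK, h2, fun a ha => h3 a (hS ha)⟩

theorem Cov.union {h K K' : ℕ} {S S' : Set V} (hc : Cov G h K S) (hc' : Cov G h K' S') :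
    Cov G h (K + K') (S ∪ S') := by
  classical
  obtain ⟨F, h1, h2, h3⟩ := hc
  obtain ⟨F', h1', h2', h3'⟩ := hc'
  refine ⟨F ∪ F', (Finset.card_union_le _ _).trans (by omega), ?_, ?_⟩
  · intro U hU
    rcases Finset.mem_union.1 hU with hU | hU
    · exact h2 U hU
    · exact h2' U hU
  · intro a ha
    rcases ha with ha | ha
    · obtain ⟨U, hU, haU⟩ := h3 a ha
      exact ⟨U, Finset.mem_union_left _ hU, haU⟩
    · obtain ⟨U, hU, haU⟩ := h3' a ha
      exact ⟨U, Finset.mem_union_right _ hU, haU⟩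

theorem Cov.of_Sm {h : ℕ} {S : Set V} (hS : Sm G h S) : Cov G h 1 S := by
  refine ⟨{S}, by simp, ?_, ?_⟩
  · intro U hU
    rw [Finset.mem_singleton] at hU
    subst hU
    exact hS
  · intro a ha
    exact ⟨S, by simp, ha⟩

theorem Cov.empty {h : ℕ} : Cov G h 0 ∅ :=
  ⟨∅, by simp, by simp, by simp⟩

theorem Cov.biUnion {ι : Type*} {h K : ℕ} (I : Finset ι) (S : ι → Set V)
    (hc : ∀ i ∈ I, Cov G h K (S i)) : Cov G h (I.card * K) {a | ∃ i ∈ I, a ∈ S i} := by
  classical
  induction I using Finset.induction_on with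
  | empty =>
    refine Cov.empty.mono (by simp) ?_
    intro a ha
    simp at ha
  | insert i I hi ih =>
    have h1 := ih (fun j hj => hc j (Finset.mem_insert_of_mem hj))
    have h2 := hc i (Finset.mem_insert_self _ _)
    refine (h1.union h2).mono ?_ ?_
    · rw [Finset.card_insert_of_notMem hi]
      ring_nf
      exact le_refl _
    · rintro a ⟨j, hj, haj⟩
      rcases Finset.mem_insert.1 hj with rfl | hj
      · exact Or.inr haj
      · exact Or.inl ⟨j, hj, haj⟩

theorem exists_avoid {h K : ℕ} {S B : Set V} (hS : ¬ Cov G h K S) (hB : Cov G h K B) :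
    ∃ z ∈ S, z ∉ B := by
  by_contra hne
  push Not at hne
  exact hS (hB.mono le_rfl hne)

end Cover

section Types

variable {V : Type u} (G : SimpleGraph V)

/-- The vertices adjacent to all of `W` up to a set small at level `w`. -/
def typ (w : ℕ) (W : Set V) : Set V := {x | Sm G w (W \ G.neighborSet x)}

variable {G}

theorem typ_notMem {w : ℕ} {W : Set V} (hW : Sm G (w + 1) W) {x : V} (hx : x ∉ typ G w W) :
    Sm G w (W ∩ G.neighborSet x) := by
  rcases Sm_succ G hW x with h | h
  · exact h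
  · exact absurd h hx

theorem typ_eq {w : ℕ} {W S : Set V} (hW : Sm G (w + 1) W) (hS : Sm G (w + 1) S)
    (hc : ¬ Cov G w 2 (W ∩ S)) : typ G w W = typ G w S := by
  ext x
  constructor
  · intro hx
    by_contra hne
    have h1 : Cov G w 1 (W \ G.neighborSet x) := Cov.of_Sm hx
    have h2 : Cov G w 1 (S ∩ G.neighborSet x) := Cov.of_Sm (typ_notMem hS hne)
    apply hc
    refine (h1.union h2).mono le_rfl ?_
    rintro a ⟨ha1, ha2⟩
    by_cases hax : a ∈ G.neighborSet x
    · exact Or.inr ⟨ha2, hax⟩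
    · exact Or.inl ⟨ha1, hax⟩
  · intro hx
    by_contra hne
    have h1 : Cov G w 1 (S \ G.neighborSet x) := Cov.of_Sm hx
    have h2 : Cov G w 1 (W ∩ G.neighborSet x) := Cov.of_Sm (typ_notMem hW hne)
    apply hc
    refine (h1.union h2).mono le_rfl ?_
    rintro a ⟨ha1, ha2⟩
    by_cases hax : a ∈ G.neighborSet x
    · exact Or.inr ⟨ha1, hax⟩
    · exact Or.inl ⟨ha2, hax⟩

/-- Greedy construction of half-graphs. -/
theorem halfGraph_build {w n : ℕ} {Z Z' : Set V}
    (h1 : ∀ z ∈ Z, Cov G w 1 (Z' ∩ G.neighborSet z))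
    (h2 : ∀ z ∈ Z', Cov G w 1 (Z \ G.neighborSet z))
    (hZ : ¬ Cov G w n Z) (hZ' : ¬ Cov G w n Z') : HalfGraph G n := by
  have key : ∀ J, J ≤ n → ∃ a b : ℕ → V, (∀ i, i < J → a i ∈ Z' ∧ b i ∈ Z) ∧
      ∀ i j, i < J → j < J → (G.Adj (a i) (b j) ↔ i ≤ j) := by
    intro J
    induction J with
    | zero =>
      intro _
      obtain ⟨z, hz, _⟩ := exists_avoid (B := ∅) hZ (Cov.empty.mono (Nat.zero_le _) (by simp))
      exact ⟨fun _ => z, fun _ => z, fun i hi => absurd hi (Nat.not_lt_zero _),
        fun i j hi => absurd hi (Nat.not_lt_zero _)⟩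
    | succ J ih =>
      intro hJ
      obtain ⟨a, b, hm, hab⟩ := ih (by omega)
      have hc1 : Cov G w (J * 1) {x | ∃ i ∈ Finset.range J, x ∈ Z' ∩ G.neighborSet (b i)} := by
        have := Cov.biUnion (G := G) (h := w) (K := 1) (Finset.range J)
          (fun i => Z' ∩ G.neighborSet (b i))
          (fun i hi => h1 (b i) (hm i (Finset.mem_range.1 hi)).2)
        simpa using this
      obtain ⟨z', hz', hz'2⟩ := exists_avoid hZ' (hc1.mono (by omega) le_rfl)
      have hc2 : Cov G w (J * 1) {x | ∃ i ∈ Finset.range J, x ∈ Z \ G.neighborSet (a i)} := by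
        have := Cov.biUnion (G := G) (h := w) (K := 1) (Finset.range J)
          (fun i => Z \ G.neighborSet (a i))
          (fun i hi => h2 (a i) (hm i (Finset.mem_range.1 hi)).1)
        simpa using this
      obtain ⟨z, hz, hz2⟩ := exists_avoid hZ ((hc2.union (h2 z' hz')).mono (by omega) le_rfl)
      refine ⟨fun i => if i < J then a i else z', fun i => if i < J then b i else z, ?_, ?_⟩
      · intro i hi
        by_cases hiJ : i < J
        · simp only [hiJ, if_true]
          exact hm i hiJ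
        · simp only [hiJ, if_false]
          exact ⟨hz', hz⟩
      · intro i j hi hj
        by_cases hiJ : i < J
        · by_cases hjJ : j < J
          · simp only [hiJ, hjJ, if_true]
            exact hab i j hiJ hjJ
          · simp only [hiJ, hjJ, if_true, if_false]
            have hle : i ≤ j := by omega
            simp only [hle, iff_true]
            by_contra hne
            apply hz2
            left
            exact ⟨i, Finset.mem_range.2 hiJ, hz, hne⟩
        · by_cases hjJ : j < J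
          · simp only [hiJ, hjJ, if_true, if_false]
            have hle : ¬ i ≤ j := by omega
            simp only [hle, iff_false]
            intro hadj
            apply hz'2
            exact ⟨j, Finset.mem_range.2 hjJ, hz', hadj.symm⟩
          · simp only [hiJ, hjJ, if_false]
            have hle : i ≤ j := by omega
            simp only [hle, iff_true]
            by_contra hne
            apply hz2
            right
            exact ⟨hz, hne⟩
  obtain ⟨a, b, _, hab⟩ := key n le_rfl
  exact ⟨fun i => a i, fun i => b i, fun i j => by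
    rw [hab i j i.2 j.2, Fin.le_def]⟩

theorem harrington {w n : ℕ} (hG : ¬ HalfGraph G n) {W W' : Set V} (hW : Sm G (w + 1) W)
    (hW' : Sm G (w + 1) W') (h1 : ¬ Cov G w n (W' ∩ typ G w W)) :
    Cov G w n (W \ typ G w W') := by
  by_contra h2
  apply hG
  apply halfGraph_build (w := w) (Z := W \ typ G w W') (Z' := W' ∩ typ G w W) _ _ h2 h1
  · intro z hz
    exact (Cov.of_Sm (typ_notMem hW' hz.2)).mono le_rfl
      (fun a ha => ⟨ha.1.1, ha.2⟩)
  · intro z hz
    have h3 : Sm G w (W \ G.neighborSet z) := hz.2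
    exact (Cov.of_Sm h3).mono le_rfl (fun a ha => ⟨ha.1.1, ha.2⟩)

variable (G)

/-- Generic adjacency between `W` and `W'`. -/
def tt (w n : ℕ) (W W' : Set V) : Prop := ¬ Cov G w n (W ∩ typ G w W')

variable {G}

theorem tt_symm {w n : ℕ} (hG : ¬ HalfGraph G n) {W W' : Set V} (hW : Sm G (w + 1) W)
    (hW' : Sm G (w + 1) W') (hfat : ¬ Cov G w (n + n) W') (h : tt G w n W W') :
    tt G w n W' W := by
  intro hc
  have h1 : ¬ Cov G w n (W' \ typ G w W) := by
    intro hc2
    apply hfat
    refine (hc.union hc2).mono le_rfl ?_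
    intro a ha
    by_cases hat : a ∈ typ G w W
    · exact Or.inl ⟨ha, hat⟩
    · exact Or.inr ⟨ha, hat⟩
  exact h1 (harrington hG hW' hW h)

theorem tt_cov {w n : ℕ} (hG : ¬ HalfGraph G n) {W W' : Set V} (hW : Sm G (w + 1) W)
    (hW' : Sm G (w + 1) W') (hfat : ¬ Cov G w (n + n) W') (h : tt G w n W W') :
    Cov G w n (W \ typ G w W') :=
  harrington hG hW hW' (tt_symm hG hW hW' hfat h)

end Types

end Pool.Agent.H367R3
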