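import Pool.Agent.H367R3.GSMain

set_option autoImplicit false

namespace Pool.Agent.H367R3

universe u

/-- Every finite forest is an induced subgraph of a finite tree. -/
theorem forest_in_tree {m : ℕ} (F : SimpleGraph (Fin m)) (hF : F.IsAcyclic) :
    ∃ T : SimpleGraph (Fin (m + 1)), T.IsTree ∧ Nonempty (F ↪g T) := by
  classical
  let ι : Fin m ↪ Option (Fin m) := ⟨some, Option.some_injective _⟩
  let H : SimpleGraph (Option (Fin m)) := F.map ι
  let S : SimpleGraph (Option (Fin m)) :=
    { Adj := fun x y => (x = none ∧ y ≠ none) ∨ (y = none ∧ x ≠ none)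
      symm := ⟨by
        rintro x y (h | h)
        · exact Or.inr h
        · exact Or.inl h⟩
      loopless := ⟨by
        rintro x (h | h)
        · exact h.2 h.1
        · exact h.2 h.1⟩ }
  have hS : ∀ x y, S.Adj x y ↔ (x = none ∧ y ≠ none) ∨ (y = none ∧ x ≠ none) := fun _ _ => Iff.rfl
  have hHacyc : H.IsAcyclic := by
    rw [SimpleGraph.isAcyclic_iff_forall_adj_isBridge]
    intro x y hxy
    obtain ⟨a, b, hab, rfl, rfl⟩ := (SimpleGraph.map_adj _ _ _ _).1 hxy
    rw [SimpleGraph.isBridge_iff]
    intro hreach
    have hbr := (SimpleGraph.isAcyclic_iff_forall_adj_isBridge.1 hF) hab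
    rw [SimpleGraph.isBridge_iff] at hbr
    apply hbr
    let φ : H.deleteEdges {s(ι a, ι b)} →g F.deleteEdges {s(a, b)} :=
      { toFun := fun x => x.getD a
        map_rel' := by
          intro x y h
          rw [SimpleGraph.deleteEdges_adj] at h ⊢
          obtain ⟨h1, h2⟩ := h
          obtain ⟨a', b', hab', rfl, rfl⟩ := (SimpleGraph.map_adj _ _ _ _).1 h1
          refine ⟨hab', ?_⟩
          intro h3
          apply h2
          rw [Set.mem_singleton_iff] at h3 ⊢
          have h4 : s(a', b') = s(a, b) := h3
          rw [Sym2.eq_iff] at h4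
          rcases h4 with ⟨rfl, rfl⟩ | ⟨rfl, rfl⟩
          · rfl
          · exact Sym2.eq_swap }
    exact hreach.map φ
  have hconn : (H ⊔ S).Connected := by
    have hnone : ∀ x, (H ⊔ S).Reachable x none := by
      intro x
      rcases x with _ | a
      · exact SimpleGraph.Reachable.refl _
      · apply SimpleGraph.Adj.reachable
        rw [SimpleGraph.sup_adj]
        right
        rw [hS]
        exact Or.inr ⟨rfl, by simp⟩
    have : Nonempty (Option (Fin m)) := ⟨none⟩
    exact SimpleGraph.Connected.mk (fun x y => (hnone x).trans (hnone y).symm)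
  obtain ⟨T, hHT, hTG, hT⟩ := hconn.exists_isTree_le_of_le_of_isAcyclic le_sup_left hHacyc
  let e : Fin (m + 1) ≃ Option (Fin m) := finSuccEquiv m
  refine ⟨T.comap e, ?_, ?_⟩
  · exact (SimpleGraph.Iso.comap e T).isTree_iff.2 hT
  · have hemb : F ↪g T :=
      { toFun := some
        inj' := Option.some_injective _
        map_rel_iff' := by
          intro a b
          show T.Adj (some a) (some b) ↔ F.Adj a b
          constructor
          · intro h
            have h1 := hTG h
            rw [SimpleGraph.sup_adj] at h1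
            rcases h1 with h1 | h1
            · obtain ⟨a', b', hab', h2, h3⟩ := (SimpleGraph.map_adj _ _ _ _).1 h1
              have h2' : a' = a := Option.some_injective _ h2
              have h3' : b' = b := Option.some_injective _ h3
              subst h2'
              subst h3'
              exact hab'
            · rw [hS] at h1
              simp at h1
          · intro h
            exact hHT ((SimpleGraph.map_adj _ _ _ _).2 ⟨a, b, h, rfl, rfl⟩) }
    exact ⟨hemb.trans (SimpleGraph.Iso.comap e T).symm.toEmbedding⟩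

/-- Forest form, with a chi-binding function. -/
theorem gyarfas_sumner_forest (n m : ℕ) (F : SimpleGraph (Fin m)) (hF : F.IsAcyclic) :
    ∃ f : ℕ → ℕ, ∀ (V : Type u) [Finite V] (G : SimpleGraph V),
      ¬ HalfGraph G n → ¬ Nonempty (F ↪g G) → G.chromaticNumber ≤ f G.cliqueNum := by
  obtain ⟨T, hT, ⟨e⟩⟩ := forest_in_tree F hF
  have hex : ∀ k : ℕ, ∃ c : ℕ, ∀ (V : Type u) [Finite V] (G : SimpleGraph V),
      ¬ HalfGraph G n → G.CliqueFree (k + 1) → ¬ Nonempty (T ↪g G) → G.Colorable c :=
    fun k => gyarfas_sumner_stable n (k + 1) (m + 1) T hT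
  choose f hf using hex
  refine ⟨f, fun V _ G hG hFG => ?_⟩
  apply SimpleGraph.Colorable.chromaticNumber_le
  apply hf _ V G hG
  · intro s hs
    have := hs.isClique.card_le_cliqueNum
    have h2 := hs.card_eq
    omega
  · rintro ⟨g⟩
    exact hFG ⟨e.trans g⟩

end Pool.Agent.H367R3
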