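import Pool.Agent.H367R3.GSBasic

set_option autoImplicit false

namespace Pool.Agent.H367R3

open Set

universe u

section Levels

variable {V : Type u} (G : SimpleGraph V)

/-- Rich sets of rank `w + 1` and their levels. -/
def P (w M n : ℕ) (A : Set V) : ℕ → Set (Set V)
  | 0 => {W | Sm G (w + 1) W ∧ ¬ Cov G w M (A ∩ W) ∧ ∃ x ∈ A, x ∈ typ G w W}
  | (i + 1) => {W | W ∈ P w M n A i ∧
      ¬ Cov G w M {y | y ∈ A ∧ y ∈ W ∧ ∃ W' ∈ P w M n A i, y ∈ typ G w W' ∧ ¬ tt G w n W W'}}

/-- Neighbourhoods inside `A` are covered by at most `q` sets small at level `w`. -/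
def CC (w q : ℕ) (A : Set V) : Prop := ∀ x ∈ A, Cov G w q (A ∩ G.neighborSet x)

variable {G}

theorem P_succ_subset {w M n : ℕ} {A : Set V} (i : ℕ) :
    P G w M n A (i + 1) ⊆ P G w M n A i := fun _ hW => hW.1

theorem P_subset_zero {w M n : ℕ} {A : Set V} : ∀ i, P G w M n A i ⊆ P G w M n A 0
  | 0 => fun _ h => h
  | (i + 1) => fun _ h => P_subset_zero i (P_succ_subset i h)

theorem P_mono {w M n : ℕ} {A A' : Set V} (hA : A ⊆ A') :
    ∀ i, P G w M n A i ⊆ P G w M n A' i
  | 0 => by
      rintro W ⟨h1, h2, x, hx, hxW⟩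
      refine ⟨h1, ?_, x, hA hx, hxW⟩
      intro hc
      exact h2 (hc.mono le_rfl (Set.inter_subset_inter_left _ hA))
  | (i + 1) => by
      rintro W ⟨h1, h2⟩
      refine ⟨P_mono hA i h1, ?_⟩
      intro hc
      apply h2
      refine hc.mono le_rfl ?_
      rintro y ⟨hyA, hyW, W', hW', hy', htt⟩
      exact ⟨hA hyA, hyW, W', P_mono hA i hW', hy', htt⟩

theorem fat_of_P {w M n : ℕ} {A : Set V} (hM : n + n ≤ M) {i : ℕ} {W : Set V}
    (hW : W ∈ P G w M n A i) : ¬ Cov G w (n + n) W := by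
  obtain ⟨_, h2, _⟩ := P_subset_zero i hW
  intro hc
  exact h2 (hc.mono hM Set.inter_subset_right)

theorem Sm_of_P {w M n : ℕ} {A : Set V} {i : ℕ} {W : Set V}
    (hW : W ∈ P G w M n A i) : Sm G (w + 1) W := (P_subset_zero i hW).1

theorem rich_of_P {w M n : ℕ} {A : Set V} {i : ℕ} {W : Set V}
    (hW : W ∈ P G w M n A i) : ¬ Cov G w M (A ∩ W) := (P_subset_zero i hW).2.1

theorem tt_symm' {w M n : ℕ} {A : Set V} (hG : ¬ HalfGraph G n) (hM : n + n ≤ M)
    {i j : ℕ} {W W' : Set V} (hW : W ∈ P G w M n A i) (hW' : W' ∈ P G w M n A j)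
    (h : tt G w n W W') : tt G w n W' W :=
  tt_symm hG (Sm_of_P hW) (Sm_of_P hW') (fat_of_P hM hW') h

theorem tt_cov' {w M n : ℕ} {A : Set V} (hG : ¬ HalfGraph G n) (hM : n + n ≤ M)
    {i j : ℕ} {W W' : Set V} (hW : W ∈ P G w M n A i) (hW' : W' ∈ P G w M n A j)
    (h : tt G w n W W') : Cov G w n (W \ typ G w W') :=
  tt_cov hG (Sm_of_P hW) (Sm_of_P hW') (fat_of_P hM hW') h

theorem obs1 {w q M n : ℕ} {A : Set V} (hC : CC G (w + 1) q A) (hM : 2 * q + 1 ≤ M)
    {x : V} (hx : x ∈ A) :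
    ∃ F : Finset (Set V), F.card ≤ q ∧
      ∀ W ∈ P G w M n A 0, x ∈ typ G w W → typ G w W ∈ F := by
  classical
  obtain ⟨F0, h1, h2, h3⟩ := hC x hx
  refine ⟨F0.image (typ G w), Finset.card_image_le.trans h1, ?_⟩
  intro W hW hxW
  obtain ⟨hWs, hWr, _⟩ := hW
  by_contra hne
  apply hWr
  have hall : ∀ S ∈ F0, Cov G w 2 (W ∩ S) := by
    intro S hS
    by_contra hc
    apply hne
    rw [typ_eq hWs (h2 S hS) hc]
    exact Finset.mem_image_of_mem _ hS
  have hb := Cov.biUnion F0 (fun S => W ∩ S) hall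
  have hx' : Cov G w 1 (W \ G.neighborSet x) := Cov.of_Sm hxW
  refine (hx'.union hb).mono (by omega) ?_
  rintro a ⟨haA, haW⟩
  by_cases hax : a ∈ G.neighborSet x
  · right
    obtain ⟨S, hS, haS⟩ := h3 a ⟨haA, hax⟩
    exact ⟨S, hS, haW, haS⟩
  · left
    exact ⟨haW, hax⟩

theorem not_tt_self {w M n k : ℕ} {A : Set V} (hG : ¬ HalfGraph G n) (hk : G.CliqueFree k)
    (hM : n + n ≤ M) (hM' : n + k ≤ M) {i : ℕ} {W : Set V} (hW : W ∈ P G w M n A i) :
    ¬ tt G w n W W := by
  classical
  intro ht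
  have hc : Cov G w n (W \ typ G w W) := tt_cov' hG hM hW hW ht
  have key : ∀ j, j ≤ k → ∃ s : Finset V, s.card = j ∧ (∀ z ∈ s, z ∈ typ G w W) ∧
      G.IsClique (s : Set V) := by
    intro j
    induction j with
    | zero =>
      intro _
      exact ⟨∅, by simp, by simp, by simp⟩
    | succ j ih =>
      intro hj
      obtain ⟨s, hcard, hm, hcl⟩ := ih (by omega)
      have hb := Cov.biUnion (G := G) (h := w) (K := 1) s (fun z => W \ G.neighborSet z)
        (fun z hz => Cov.of_Sm (hm z hz))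
      obtain ⟨z, hz, hz2⟩ := exists_avoid (rich_of_P hW)
        ((hc.union hb).mono (by omega : n + s.card * 1 ≤ M) le_rfl)
      have hzt : z ∈ typ G w W := by
        by_contra hne
        exact hz2 (Or.inl ⟨hz.2, hne⟩)
      have hadj : ∀ z' ∈ s, G.Adj z' z := by
        intro z' hz'
        by_contra hne
        exact hz2 (Or.inr ⟨z', hz', hz.2, hne⟩)
      have hzs : z ∉ s := fun h => (hadj z h).ne rfl
      refine ⟨insert z s, ?_, ?_, ?_⟩
      · rw [Finset.card_insert_of_notMem hzs, hcard]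
      · intro z' hz'
        rcases Finset.mem_insert.1 hz' with rfl | h
        · exact hzt
        · exact hm z' h
      · rw [Finset.coe_insert, SimpleGraph.isClique_insert]
        exact ⟨hcl, fun b hb _ => (hadj b hb).symm⟩
  obtain ⟨s, hcard, _, hcl⟩ := key k le_rfl
  exact hk s ⟨hcl, hcard⟩

theorem obs2 [Finite V] {w q M n : ℕ} {A : Set V} (hG : ¬ HalfGraph G n)
    (hC : CC G (w + 1) q A) (hM : 2 * q + 1 ≤ M) (hM2 : n + n ≤ M)
    (hM3 : (q + 1) * n ≤ M) {i : ℕ} {W : Set V} (hW : W ∈ P G w M n A i) :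
    ∃ F : Finset (Set V), F.card ≤ q ∧
      ∀ W' ∈ P G w M n A 0, tt G w n W W' → typ G w W' ∈ F := by
  classical
  have hfin : {τ : Set V | ∃ W' ∈ P G w M n A 0, typ G w W' = τ ∧ tt G w n W W'}.Finite :=
    Set.toFinite _
  refine ⟨hfin.toFinset, ?_, ?_⟩
  · by_contra hcard
    rw [not_le] at hcard
    obtain ⟨sub, hsub, hsc⟩ := Finset.exists_subset_card_eq (s := hfin.toFinset) (n := q + 1)
      (by omega)
    have hb : Cov G w (sub.card * n) {a | ∃ τ ∈ sub, a ∈ W \ τ} := by
      apply Cov.biUnion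
      intro τ hτ
      have h1 := hsub hτ
      rw [Set.Finite.mem_toFinset] at h1
      obtain ⟨W', hW', rfl, ht⟩ := h1
      exact tt_cov' hG hM2 hW hW' ht
    rw [hsc] at hb
    obtain ⟨p, hp, hp2⟩ := exists_avoid (rich_of_P hW) (hb.mono hM3 le_rfl)
    obtain ⟨Fp, hFp1, hFp2⟩ := obs1 (n := n) hC hM hp.1
    have hsubF : sub ⊆ Fp := by
      intro τ hτ
      have h1 := hsub hτ
      rw [Set.Finite.mem_toFinset] at h1
      obtain ⟨W', hW', rfl, ht⟩ := h1
      apply hFp2 W' hW'
      by_contra hne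
      exact hp2 ⟨_, hτ, hp.2, hne⟩
    have := Finset.card_le_card hsubF
    omega
  · intro W' hW' ht
    rw [Set.Finite.mem_toFinset]
    exact ⟨W', hW', rfl, ht⟩

/-- The avoiding set used when extending a partial embedding. -/
theorem cov_types {w q n : ℕ} (Wv : Set V) (F : Finset (Set V)) (hF : F.card ≤ q) :
    Cov G w (q * n) {a | ∃ τ ∈ F, Cov G w n (Wv ∩ τ) ∧ a ∈ Wv ∩ τ} := by
  classical
  have hb : Cov G w ((F.filter (fun τ => Cov G w n (Wv ∩ τ))).card * n)
      {a | ∃ τ ∈ F.filter (fun τ => Cov G w n (Wv ∩ τ)), a ∈ Wv ∩ τ} := by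
    apply Cov.biUnion
    intro τ hτ
    exact (Finset.mem_filter.1 hτ).2
  refine hb.mono ?_ ?_
  · exact Nat.mul_le_mul_right _ ((Finset.card_filter_le _ _).trans hF)
  · rintro a ⟨τ, hτ, hc, ha⟩
    exact ⟨τ, Finset.mem_filter.2 ⟨hτ, hc⟩, ha⟩

theorem embed_tree [Finite V] {w q M n k m : ℕ} {A : Set V} (hG : ¬ HalfGraph G n)
    (hk : G.CliqueFree k) (hC : CC G (w + 1) q A) (hM : 2 * q + 1 ≤ M) (hM2 : n + n ≤ M)
    (hM3 : (q + 1) * n ≤ M) (hM4 : n + k ≤ M) (hM5 : m * (1 + q * n + (n + q * n)) ≤ M) :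
    ∀ (N : ℕ) (α : Type) [Fintype α] (T : SimpleGraph α), T.IsTree →
      Fintype.card α = N + 1 → N ≤ m → ∀ k', (P G w M n A (k' + N)).Nonempty →
      ∃ (φ : α → V) (W : α → Set V),
        (∀ a, φ a ∈ A ∧ W a ∈ P G w M n A k' ∧ φ a ∈ typ G w (W a)) ∧
        (∀ a b, a ≠ b → φ b ∉ typ G w (W a)) ∧
        (∀ a b, a ≠ b → ¬ tt G w n (W a) (W b)) ∧
        ∀ a b, T.Adj a b ↔ G.Adj (φ a) (φ b) := by
  classical
  intro N
  induction N with
  | zero =>
    intro α _ T _ hcard _ k' hne
    obtain ⟨W0, hW0⟩ := hne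
    obtain ⟨_, _, x, hx, hxW⟩ := P_subset_zero _ hW0
    have hsub : Subsingleton α := Fintype.card_le_one_iff_subsingleton.1 (by omega)
    refine ⟨fun _ => x, fun _ => W0, fun a => ⟨hx, hW0, hxW⟩, ?_, ?_, ?_⟩
    · intro a b hab
      exact absurd (Subsingleton.elim a b) hab
    · intro a b hab
      exact absurd (Subsingleton.elim a b) hab
    · intro a b
      rw [Subsingleton.elim a b]
      simp
  | succ N ih =>
    intro α _ T hT hcard hNm k' hne
    have hnt : Nontrivial α := Fintype.one_lt_card_iff_nontrivial.1 (by omega)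
    obtain ⟨l, hl⟩ := hT.exists_vert_degree_one_of_nontrivial
    have hconn := hT.connected.induce_compl_singleton_of_degree_eq_one hl
    have hT' : (T.induce ({l}ᶜ : Set α)).IsTree := ⟨hconn, hT.isAcyclic.induce _⟩
    have hcard' : Fintype.card ({l}ᶜ : Set α) = N + 1 := by
      rw [Fintype.card_compl_set]
      simp [hcard]
    have hne' : (P G w M n A (k' + 1 + N)).Nonempty := by
      have : k' + 1 + N = k' + (N + 1) := by ring
      rw [this]
      exact hne
    obtain ⟨φ, W, h1, h2, h3, h4⟩ := ih ({l}ᶜ : Set α) (T.induce ({l}ᶜ : Set α)) hT' hcard'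
      (by omega) (k' + 1) hne'
    obtain ⟨v, hv, hvu⟩ := SimpleGraph.degree_eq_one_iff_existsUnique_adj.1 hl
    have hvl : v ≠ l := hv.ne'
    have hvmem : v ∈ ({l}ᶜ : Set α) := hvl
    set v' : ({l}ᶜ : Set α) := ⟨v, hvmem⟩ with hv'
    have hPv := (h1 v').2.1
    have hrich := hPv.2
    -- the sets to avoid
    have hF : ∀ u : ({l}ᶜ : Set α), ∃ F : Finset (Set V), F.card ≤ q ∧
        ∀ W' ∈ P G w M n A 0, φ u ∈ typ G w W' → typ G w W' ∈ F :=
      fun u => obs1 hC hM (h1 u).1
    choose F hFc hFm using hF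
    have hF' : ∀ u : ({l}ᶜ : Set α), ∃ F : Finset (Set V), F.card ≤ q ∧
        ∀ W' ∈ P G w M n A 0, tt G w n (W u) W' → typ G w W' ∈ F :=
      fun u => obs2 hG hC hM hM2 hM3 (h1 u).2.1
    choose F' hFc' hFm' using hF'
    let Ba : ({l}ᶜ : Set α) → Set V := fun u =>
      if u = v' then W v' \ G.neighborSet (φ u) else W v' ∩ G.neighborSet (φ u)
    let Bb : ({l}ᶜ : Set α) → Set V := fun u =>
      {a | ∃ τ ∈ F u, Cov G w n (W v' ∩ τ) ∧ a ∈ W v' ∩ τ}
    let Bc : ({l}ᶜ : Set α) → Set V := fun u => W v' ∩ typ G w (W u)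
    let Bd : ({l}ᶜ : Set α) → Set V := fun u =>
      {a | ∃ τ ∈ F' u, Cov G w n (W v' ∩ τ) ∧ a ∈ W v' ∩ τ}
    have hcov : ∀ u, Cov G w (1 + q * n + (n + q * n)) ((Ba u ∪ Bb u) ∪ (Bc u ∪ Bd u)) := by
      intro u
      refine (Cov.union ?_ ?_).union (Cov.union ?_ ?_)
      · by_cases huv : u = v'
        · simp only [Ba, huv, if_true]
          exact Cov.of_Sm (h1 v').2.2
        · simp only [Ba, huv, if_false]
          exact Cov.of_Sm (typ_notMem (Sm_of_P hPv) (h2 v' u (Ne.symm huv)))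
      · exact cov_types _ _ (hFc u)
      · by_cases huv : u = v'
        · subst huv
          exact not_not.1 (not_tt_self hG hk hM2 hM4 hPv)
        · exact not_not.1 (h3 v' u (Ne.symm huv))
      · exact cov_types _ _ (hFc' u)
    have hcovall := Cov.biUnion (G := G) (Finset.univ : Finset ({l}ᶜ : Set α))
      (fun u => (Ba u ∪ Bb u) ∪ (Bc u ∪ Bd u)) (fun u _ => hcov u)
    have hbound : (Finset.univ : Finset ({l}ᶜ : Set α)).card * (1 + q * n + (n + q * n)) ≤ M := by
      rw [Finset.card_univ, hcard']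
      exact (Nat.mul_le_mul_right _ hNm).trans hM5
    obtain ⟨z, hzY, hzB⟩ := exists_avoid hrich (hcovall.mono hbound le_rfl)
    obtain ⟨hzA, hzW, Wz, hWz, hzWz, hnt1⟩ := hzY
    have hWz0 := P_subset_zero _ hWz
    have hzB' : ∀ u, z ∉ Ba u ∧ z ∉ Bb u ∧ z ∉ Bc u ∧ z ∉ Bd u := by
      intro u
      refine ⟨fun h => hzB ⟨u, Finset.mem_univ _, Or.inl (Or.inl h)⟩,
        fun h => hzB ⟨u, Finset.mem_univ _, Or.inl (Or.inr h)⟩,
        fun h => hzB ⟨u, Finset.mem_univ _, Or.inr (Or.inl h)⟩,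
        fun h => hzB ⟨u, Finset.mem_univ _, Or.inr (Or.inr h)⟩⟩
    have f1 : ∀ u, u ≠ v' → ¬ G.Adj (φ u) z := by
      intro u huv hadj
      apply (hzB' u).1
      simp only [Ba, huv, if_false]
      exact ⟨hzW, hadj⟩
    have f1' : G.Adj (φ v') z := by
      by_contra hadj
      apply (hzB' v').1
      simp only [Ba, if_true]
      exact ⟨hzW, hadj⟩
    have f2 : ∀ u, φ u ∉ typ G w Wz := by
      intro u hu
      apply (hzB' u).2.1
      exact ⟨typ G w Wz, hFm u Wz hWz0 hu, not_not.1 hnt1, hzW, hzWz⟩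
    have f3 : ∀ u, z ∉ typ G w (W u) := by
      intro u hu
      exact (hzB' u).2.2.1 ⟨hzW, hu⟩
    have f4 : ∀ u, ¬ tt G w n (W u) Wz := by
      intro u hu
      apply (hzB' u).2.2.2
      exact ⟨typ G w Wz, hFm' u Wz hWz0 hu, not_not.1 hnt1, hzW, hzWz⟩
    have f5 : ∀ u, ¬ tt G w n Wz (W u) := by
      intro u hu
      exact f4 u (tt_symm' hG hM2 hWz (h1 u).2.1 hu)
    refine ⟨fun a => if h : a = l then z else φ ⟨a, h⟩,
      fun a => if h : a = l then Wz else W ⟨a, h⟩, ?_, ?_, ?_, ?_⟩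
    · intro a
      by_cases ha : a = l
      · simp only [ha, dif_pos]
        exact ⟨hzA, hWz, hzWz⟩
      · simp only [ha, dif_neg, not_false_iff]
        exact ⟨(h1 _).1, P_succ_subset _ (h1 _).2.1, (h1 _).2.2⟩
    · intro a b hab
      by_cases ha : a = l
      · have hb : b ≠ l := fun h => hab (ha.trans h.symm)
        simp only [ha, hb, dif_pos, dif_neg, not_false_iff]
        exact f2 _
      · by_cases hb : b = l
        · simp only [ha, hb, dif_pos, dif_neg, not_false_iff]
          exact f3 _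
        · simp only [ha, hb, dif_neg, not_false_iff]
          apply h2
          intro h
          exact hab (congrArg Subtype.val h)
    · intro a b hab
      by_cases ha : a = l
      · have hb : b ≠ l := fun h => hab (ha.trans h.symm)
        simp only [ha, hb, dif_pos, dif_neg, not_false_iff]
        exact f5 _
      · by_cases hb : b = l
        · simp only [ha, hb, dif_pos, dif_neg, not_false_iff]
          exact f4 _
        · simp only [ha, hb, dif_neg, not_false_iff]
          apply h3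
          intro h
          exact hab (congrArg Subtype.val h)
    · intro a b
      by_cases ha : a = l
      · by_cases hb : b = l
        · simp [ha, hb]
        · simp only [ha, hb, dif_pos, dif_neg, not_false_iff]
          constructor
          · intro h
            have hbv : b = v := hvu b h
            subst hbv
            exact f1'.symm
          · intro h
            by_contra hne2
            have hbv : (⟨b, hb⟩ : ({l}ᶜ : Set α)) ≠ v' := by
              intro h'
              have : b = v := congrArg Subtype.val h'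
              rw [this] at hne2
              exact hne2 hv
            exact f1 _ hbv h.symm
      · by_cases hb : b = l
        · simp only [ha, hb, dif_pos, dif_neg, not_false_iff]
          constructor
          · intro h
            have hbv : a = v := hvu a h.symm
            subst hbv
            exact f1'
          · intro h
            by_contra hne2
            have hbv : (⟨a, ha⟩ : ({l}ᶜ : Set α)) ≠ v' := by
              intro h'
              have : a = v := congrArg Subtype.val h'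
              rw [this] at hne2
              exact hne2 hv.symm
            exact f1 _ hbv h
        · simp only [ha, hb, dif_neg, not_false_iff]
          rw [← h4]
          rfl

end Levels

end Pool.Agent.H367R3
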