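import Pool.Agent.H367R3.GSMain

set_option autoImplicit false

namespace Pool.Agent.H367R3

universe u

theorem linInd_of_tri {E F : Type*} [AddCommGroup E] [Module ℝ E] [AddCommGroup F] [Module ℝ F]
    {n : ℕ} (b : Fin n → E) (f : Fin n → E →ₗ[ℝ] F) (h0 : ∀ i, f i (b i) ≠ 0)
    (h1 : ∀ i j, i < j → f i (b j) = 0) : LinearIndependent ℝ b := by
  rw [Fintype.linearIndependent_iff]
  intro g hg
  have key : ∀ m : ℕ, ∀ i : Fin n, i.1 = m → g i = 0 := by
    intro m
    induction m using Nat.strong_induction_on with
    | _ m ih =>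
      intro i hi
      have h2 := congrArg (f i) hg
      rw [map_sum, map_zero] at h2
      rw [Finset.sum_eq_single i] at h2
      · rw [map_smul] at h2
        rcases smul_eq_zero.1 h2 with h | h
        · exact h
        · exact absurd h (h0 i)
      · intro j _ hji
        rw [map_smul]
        rcases lt_trichotomy j i with hlt | heq | hgt
        · rw [ih j.1 (by rw [← hi]; exact hlt) j rfl, zero_smul]
        · exact absurd heq hji
        · rw [h1 i j hgt, smul_zero]
      · intro h
        exact absurd (Finset.mem_univ i) h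
  intro i
  exact key i.1 i rfl

/-- If adjacency is the vanishing of a bilinear pairing on a `D`-dimensional space, there is no
half-graph of order `D + 2`. -/
theorem no_halfGraph_of_pairing {V : Type u} (G : SimpleGraph V) {E F : Type*} [AddCommGroup E]
    [Module ℝ E] [FiniteDimensional ℝ E] [AddCommGroup F] [Module ℝ F]
    (v : V → E) (f : V → E →ₗ[ℝ] F) (h : ∀ x y, G.Adj x y ↔ f x (v y) = 0) {D : ℕ}
    (hD : Module.finrank ℝ E ≤ D) : ¬ HalfGraph G (D + 2) := by
  rintro ⟨a, b, hab⟩
  have hli : LinearIndependent ℝ (fun i : Fin (D + 1) => v (b i.castSucc)) := by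
    apply linInd_of_tri _ (fun i : Fin (D + 1) => f (a i.succ))
    · intro i hi
      have h1 := (h _ _).2 hi
      rw [hab] at h1
      exact absurd h1 (by rw [not_le]; exact Fin.castSucc_lt_succ)
    · intro i j hij
      rw [← h, hab]
      exact Fin.succ_le_castSucc_iff.2 hij
  have h2 := hli.fintype_card_le_finrank
  rw [Fintype.card_fin] at h2
  omega

end Pool.Agent.H367R3
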