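import Pool.Agent.H367R3.GSLin

set_option autoImplicit false

namespace Pool.Agent.H367R3

universe u

/-- If adjacency is the vanishing of a bilinear pairing on a `D`-dimensional space together with
the failure of a symmetric transitive relation, there is no half-graph of order `(D + 2) ^ 2`. -/
theorem no_halfGraph_of_pairing_par {V : Type u} (G : SimpleGraph V) {E F : Type*}
    [AddCommGroup E] [Module ℝ E] [FiniteDimensional ℝ E] [AddCommGroup F] [Module ℝ F]
    (v : V → E) (f : V → E →ₗ[ℝ] F) (Par : V → V → Prop) (hsymm : ∀ x y, Par x y → Par y x)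
    (htrans : ∀ x y z, Par x y → Par y z → Par x z)
    (h : ∀ x y, G.Adj x y ↔ (f x (v y) = 0 ∧ ¬ Par x y)) {D : ℕ}
    (hD : Module.finrank ℝ E ≤ D) : ¬ HalfGraph G ((D + 2) * (D + 2)) := by
  classical
  obtain ⟨n, hn⟩ : ∃ n, n = (D + 2) * (D + 2) := ⟨_, rfl⟩
  rw [← hn]
  rintro ⟨a, b, hab⟩
  let Γ : Fin n → Fin n → Prop := fun i j => (j < i ∧ Par (a i) (b j)) ∨ (i < j ∧ Par (a j) (b i))
  have hΓs : ∀ i j, Γ i j → Γ j i := by
    rintro i j (h1 | h1)
    · exact Or.inr h1
    · exact Or.inl h1
  have hΓi : ∀ i, ¬ Γ i i := by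
    rintro i (h1 | h1)
    · exact lt_irrefl _ h1.1
    · exact lt_irrefl _ h1.1
  have hΓlt : ∀ i j, i < j → Γ i j → Par (a j) (b i) := by
    rintro i j hij (h1 | h1)
    · exact absurd h1.1 (not_lt_of_gt hij)
    · exact h1.2
  have htri : ∀ i j k, i < j → j < k → Γ i j → Γ j k → Γ i k → False := by
    intro i j k hij hjk h1 h2 h3
    have e1 := hΓlt i j hij h1
    have e2 := hΓlt j k hjk h2
    have e3 := hΓlt i k (hij.trans hjk) h3
    have hadj := (hab j j).2 le_rfl
    rw [h] at hadj
    exact hadj.2 (htrans _ _ _ (htrans _ _ _ e1 (hsymm _ _ e3)) e2)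
  -- independent set of size `D + 2`
  have hind : ∃ I : Finset (Fin n), D + 2 ≤ I.card ∧ ∀ i ∈ I, ∀ j ∈ I, ¬ Γ i j := by
    by_cases hdeg : ∃ l : Fin n, D + 2 ≤ (Finset.univ.filter (fun i => Γ l i)).card
    · obtain ⟨l, hl⟩ := hdeg
      refine ⟨_, hl, ?_⟩
      have main : ∀ x y, x < y → Γ l x → Γ l y → ¬ Γ x y := by
        intro x y hxy hx hy hxy'
        rcases lt_trichotomy l x with h1 | h1 | h1
        · exact htri l x y h1 hxy hx hxy' hy
        · subst h1
          exact hΓi _ hx
        · rcases lt_trichotomy l y with h2 | h2 | h2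
          · exact htri x l y h1 h2 (hΓs _ _ hx) hy hxy'
          · subst h2
            exact hΓi _ hy
          · exact htri x y l hxy h2 hxy' (hΓs _ _ hy) (hΓs _ _ hx)
      intro x hx y hy hxy
      have hx' := (Finset.mem_filter.1 hx).2
      have hy' := (Finset.mem_filter.1 hy).2
      rcases lt_trichotomy x y with h1 | h1 | h1
      · exact main x y h1 hx' hy' hxy
      · subst h1
        exact hΓi _ hxy
      · exact main y x h1 hy' hx' (hΓs _ _ hxy)
    · push Not at hdeg
      obtain ⟨κ, hκ1, hκ2⟩ := degree_color (Finset.univ : Finset (Fin n)) Γ hΓs hΓi (D + 1)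
        (fun l _ => ⟨Finset.univ.filter (fun i => Γ l i), by have := hdeg l; omega,
          fun i _ hi => Finset.mem_filter.2 ⟨Finset.mem_univ _, hi⟩⟩)
      have hmaps : ∀ i ∈ (Finset.univ : Finset (Fin n)), κ i ∈ Finset.range (D + 2) :=
        fun i hi => Finset.mem_range.2 (hκ1 i hi)
      obtain ⟨c, _, hc⟩ := Finset.exists_le_card_fiber_of_mul_le_card_of_maps_to hmaps
        (by simp) (n := D + 2) (by rw [Finset.card_range, Finset.card_univ, Fintype.card_fin, hn])
      refine ⟨_, hc, ?_⟩
      intro x hx y hy hxy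
      have hx' := (Finset.mem_filter.1 hx).2
      have hy' := (Finset.mem_filter.1 hy).2
      exact hκ2 x (Finset.mem_univ _) y (Finset.mem_univ _) hxy (hx'.trans hy'.symm)
  obtain ⟨I, hIc, hI⟩ := hind
  obtain ⟨J, hJI, hJ⟩ := Finset.exists_subset_card_eq hIc
  let e := J.orderEmbOfFin hJ
  have heI : ∀ i, e i ∈ I := fun i => hJI (Finset.orderEmbOfFin_mem J hJ i)
  have hli : LinearIndependent ℝ (fun i : Fin (D + 1) => v (b (e i.castSucc))) := by
    apply linInd_of_tri _ (fun i : Fin (D + 1) => f (a (e i.succ)))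
    · intro i hi
      have hlt : e i.castSucc < e i.succ := e.lt_iff_lt.2 Fin.castSucc_lt_succ
      by_cases hp : Par (a (e i.succ)) (b (e i.castSucc))
      · exact hI _ (heI i.succ) _ (heI i.castSucc) (Or.inl ⟨hlt, hp⟩)
      · have h1 := (h _ _).2 ⟨hi, hp⟩
        rw [hab] at h1
        exact absurd h1 (not_le_of_gt hlt)
    · intro i j hij
      have hle : e i.succ ≤ e j.castSucc := e.le_iff_le.2 (Fin.succ_le_castSucc_iff.2 hij)
      exact ((h _ _).1 ((hab _ _).2 hle)).1
  have h2 := hli.fintype_card_le_finrank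
  rw [Fintype.card_fin] at h2
  omega

section Plucker

variable {d : ℕ}

/-- Plucker-type coordinates of the line through `q` with direction `w`. -/
def pluck (q w : Fin d → ℝ) : (Fin d → ℝ) × (Fin d → Fin d → ℝ) :=
  (w, fun i j => q i * w j - q j * w i)

/-- The pairing of the line `(p, u)` with Plucker-type coordinates. -/
def pluckPair (p u : Fin d → ℝ) :
    ((Fin d → ℝ) × (Fin d → Fin d → ℝ)) →ₗ[ℝ] (Fin d → Fin d → Fin d → ℝ) where
  toFun y := fun i j k =>
    (p i * u j - p j * u i) * y.1 k + (p j * u k - p k * u j) * y.1 i +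
      (p k * u i - p i * u k) * y.1 j + (y.2 i j * u k + y.2 j k * u i + y.2 k i * u j)
  map_add' y z := by
    funext i j k
    simp only [Prod.fst_add, Prod.snd_add, Pi.add_apply]
    ring
  map_smul' c y := by
    funext i j k
    simp only [Prod.smul_fst, Prod.smul_snd, Pi.smul_apply, smul_eq_mul, RingHom.id_apply]
    ring

theorem pluckPair_pluck (p u q w : Fin d → ℝ) (i j k : Fin d) :
    pluckPair p u (pluck q w) i j k =
      (p i - q i) * (u j * w k - u k * w j) + (p j - q j) * (u k * w i - u i * w k) +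
        (p k - q k) * (u i * w j - u j * w i) := by
  simp only [pluckPair, pluck, LinearMap.coe_mk, AddHom.coe_mk]
  ring

/-- Parallel directions. -/
def ParDir (u w : Fin d → ℝ) : Prop := ∀ i j, u i * w j = u j * w i

theorem ParDir.symm {u w : Fin d → ℝ} (h : ParDir u w) : ParDir w u := by
  intro i j
  have := h j i
  linarith [mul_comm (w i) (u j), mul_comm (w j) (u i)]

theorem ParDir.exists_smul {u w : Fin d → ℝ} (hu : u ≠ 0) (h : ParDir u w) :
    ∃ c : ℝ, w = c • u := by
  obtain ⟨i, hi⟩ := Function.ne_iff.1 hu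
  have hi' : u i ≠ 0 := hi
  refine ⟨w i / u i, ?_⟩
  funext j
  have := h i j
  simp only [Pi.smul_apply, smul_eq_mul]
  field_simp
  linarith

theorem ParDir.trans {u w z : Fin d → ℝ} (hw : w ≠ 0) (h1 : ParDir u w) (h2 : ParDir w z) :
    ParDir u z := by
  obtain ⟨c, rfl⟩ := h2.exists_smul hw
  intro i j
  simp only [Pi.smul_apply, smul_eq_mul]
  have := h1 i j
  linear_combination c * this

theorem meet_imp {p u q w : Fin d → ℝ} {s t : ℝ} (h : p + s • u = q + t • w) :
    pluckPair p u (pluck q w) = 0 := by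
  funext i j k
  rw [pluckPair_pluck]
  have hi := congrFun h i
  have hj := congrFun h j
  have hk := congrFun h k
  simp only [Pi.add_apply, Pi.smul_apply, smul_eq_mul] at hi hj hk
  have ei : p i - q i = t * w i - s * u i := by linarith
  have ej : p j - q j = t * w j - s * u j := by linarith
  have ek : p k - q k = t * w k - s * u k := by linarith
  rw [ei, ej, ek]
  simp only [Pi.zero_apply]
  ring

theorem meet_of {p u q w : Fin d → ℝ} (h : pluckPair p u (pluck q w) = 0)
    (hpar : ¬ ParDir u w) : ∃ s t : ℝ, p + s • u = q + t • w := by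
  unfold ParDir at hpar
  push Not at hpar
  obtain ⟨i, j, hij⟩ := hpar
  have hD : u i * w j - u j * w i ≠ 0 := sub_ne_zero.2 hij
  refine ⟨-(((p i - q i) * w j - (p j - q j) * w i) / (u i * w j - u j * w i)),
    (u i * (p j - q j) - u j * (p i - q i)) / (u i * w j - u j * w i), ?_⟩
  funext k
  have h1 := congrFun (congrFun (congrFun h i) j) k
  rw [pluckPair_pluck] at h1
  simp only [Pi.zero_apply] at h1
  simp only [Pi.add_apply, Pi.smul_apply, smul_eq_mul]
  have e : p k - q k = (((p i - q i) * w j - (p j - q j) * w i) * u k +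
      (u i * (p j - q j) - u j * (p i - q i)) * w k) / (u i * w j - u j * w i) := by
    rw [eq_div_iff hD]
    linear_combination h1
  linear_combination e

end Plucker

/-- A line in `ℝ^d`. -/
def IsLine (d : ℕ) (L : Set (EuclideanSpace ℝ (Fin d))) : Prop :=
  ∃ p u : EuclideanSpace ℝ (Fin d), u ≠ 0 ∧ L = {x | ∃ t : ℝ, x = p + t • u}

/-- `G` is (isomorphic to) the intersection graph of a finite family of distinct lines in `ℝ^d`:
its vertices are represented by pairwise distinct lines, two vertices being adjacent exactly when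
the two lines share a point. -/
def IsLineIntersectionGraph (d : ℕ) {V : Type u} (G : SimpleGraph V) : Prop :=
  ∃ L : V → Set (EuclideanSpace ℝ (Fin d)), Function.Injective L ∧ (∀ v, IsLine d (L v)) ∧
    ∀ v w, G.Adj v w ↔ (v ≠ w ∧ (L v ∩ L w).Nonempty)

theorem lines_no_halfGraph (d : ℕ) {V : Type u} (G : SimpleGraph V)
    (hG : IsLineIntersectionGraph d G) :
    ¬ HalfGraph G ((d + d * d + 2) * (d + d * d + 2)) := by
  obtain ⟨L, hinj, hL, hadj⟩ := hG
  choose p u hu hLe using hL
  let p' : V → Fin d → ℝ := fun v => (p v).ofLp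
  let u' : V → Fin d → ℝ := fun v => (u v).ofLp
  have hu' : ∀ v, u' v ≠ 0 := by
    intro v h
    apply hu v
    ext i
    exact congrFun h i
  have hmeet : ∀ v w, (L v ∩ L w).Nonempty ↔ ∃ s t : ℝ, p' v + s • u' v = p' w + t • u' w := by
    intro v w
    rw [hLe v, hLe w]
    constructor
    · rintro ⟨x, ⟨s, hs⟩, ⟨t, ht⟩⟩
      refine ⟨s, t, ?_⟩
      have h1 := congrArg WithLp.ofLp (hs.symm.trans ht)
      exact h1
    · rintro ⟨s, t, hst⟩
      refine ⟨p v + s • u v, ⟨s, rfl⟩, ⟨t, ?_⟩⟩
      ext i
      exact congrFun hst i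
  have hsame : ∀ v w, ParDir (u' v) (u' w) → (L v ∩ L w).Nonempty → v = w := by
    intro v w hpar hne
    obtain ⟨s, t, hst⟩ := (hmeet v w).1 hne
    obtain ⟨c, hc⟩ := hpar.exists_smul (hu' v)
    have hc0 : c ≠ 0 := by
      rintro rfl
      rw [zero_smul] at hc
      exact hu' w hc
    have hcE : u w = c • u v := by
      ext i
      exact congrFun hc i
    have hstE : p v + s • u v = p w + t • u w := by
      ext i
      exact congrFun hst i
    apply hinj
    rw [hLe v, hLe w]
    ext x
    constructor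
    · rintro ⟨r, rfl⟩
      refine ⟨t + (r - s) / c, ?_⟩
      have : p v + r • u v = (p v + s • u v) + (r - s) • u v := by
        rw [sub_smul]
        abel
      rw [this, hstE, add_assoc, add_smul]
      congr 2
      rw [hcE, smul_smul]
      congr 1
      field_simp
    · rintro ⟨r, rfl⟩
      refine ⟨s + (r - t) * c, ?_⟩
      have : p w + r • u w = (p w + t • u w) + (r - t) • u w := by
        rw [sub_smul]
        abel
      rw [this, ← hstE, add_assoc, add_smul]
      congr 2
      rw [hcE, smul_smul]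
  apply no_halfGraph_of_pairing_par G (fun v => pluck (p' v) (u' v))
    (fun v => pluckPair (p' v) (u' v)) (fun v w => ParDir (u' v) (u' w))
  · intro x y h
    exact h.symm
  · intro x y z h1 h2
    exact h1.trans (hu' y) h2
  · intro x y
    rw [hadj]
    constructor
    · rintro ⟨hne, hm⟩
      refine ⟨?_, fun hpar => hne (hsame x y hpar hm)⟩
      obtain ⟨s, t, hst⟩ := (hmeet x y).1 hm
      exact meet_imp hst
    · rintro ⟨h0, hpar⟩
      refine ⟨?_, (hmeet x y).2 (meet_of h0 hpar)⟩
      rintro rfl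
      exact hpar (fun i j => mul_comm _ _)
  · rw [Module.finrank_prod, Module.finrank_fin_fun]
    have : Module.finrank ℝ (Fin d → Fin d → ℝ) = d * d := by
      rw [Module.finrank_pi_fintype]
      simp
    omega

end Pool.Agent.H367R3
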