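import Pool.Agent.H367R3.GSLevels

set_option autoImplicit false

namespace Pool.Agent.H367R3

open Set

universe u

section Colour

variable {V : Type u} (G : SimpleGraph V)

/-- `A` induces a `c`-colourable subgraph. -/
def Col (A : Set V) (c : ℕ) : Prop :=
  ∃ f : V → ℕ, (∀ x ∈ A, f x < c) ∧ ∀ x ∈ A, ∀ y ∈ A, G.Adj x y → f x ≠ f y

variable {G}

theorem Col.glue {A : Set V} {r c : ℕ} (g : V → ℕ) (hg : ∀ x ∈ A, g x < r)
    (h : ∀ j, j < r → Col G {x | x ∈ A ∧ g x = j} c) : Col G A (r * c) := by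
  classical
  choose! f hf1 hf2 using h
  refine ⟨fun x => g x * c + f (g x) x, ?_, ?_⟩
  · intro x hx
    have h1 := hg x hx
    have h2 := hf1 (g x) h1 x ⟨hx, rfl⟩
    have h3 : (g x + 1) * c ≤ r * c := Nat.mul_le_mul_right _ h1
    have h4 : (g x + 1) * c = g x * c + c := by ring
    show g x * c + f (g x) x < r * c
    omega
  · intro x hx y hy hadj
    have hx1 := hf1 (g x) (hg x hx) x ⟨hx, rfl⟩
    have hy1 := hf1 (g y) (hg y hy) y ⟨hy, rfl⟩
    show g x * c + f (g x) x ≠ g y * c + f (g y) y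
    rcases lt_trichotomy (g x) (g y) with hlt | heq | hgt
    · have h3 : (g x + 1) * c ≤ g y * c := Nat.mul_le_mul_right _ hlt
      have h4 : (g x + 1) * c = g x * c + c := by ring
      omega
    · have h5 := hf2 (g x) (hg x hx) x ⟨hx, rfl⟩ y ⟨hy, heq.symm⟩ hadj
      rw [← heq]
      omega
    · have h3 : (g y + 1) * c ≤ g x * c := Nat.mul_le_mul_right _ hgt
      have h4 : (g y + 1) * c = g y * c + c := by ring
      omega

theorem degree_color {β : Type*} (s : Finset β) (ρ : β → β → Prop)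
    (hsym : ∀ a b, ρ a b → ρ b a) (hirr : ∀ a, ¬ ρ a a) (q : ℕ)
    (hd : ∀ a ∈ s, ∃ F : Finset β, F.card ≤ q ∧ ∀ b ∈ s, ρ a b → b ∈ F) :
    ∃ κ : β → ℕ, (∀ a ∈ s, κ a < q + 1) ∧ ∀ a ∈ s, ∀ b ∈ s, ρ a b → κ a ≠ κ b := by
  classical
  induction s using Finset.induction_on with
  | empty => exact ⟨fun _ => 0, by simp, by simp⟩
  | insert a s ha ih =>
    obtain ⟨κ, h1, h2⟩ := ih (fun b hb => by
      obtain ⟨F, hF, hF'⟩ := hd b (Finset.mem_insert_of_mem hb)
      exact ⟨F, hF, fun c hc => hF' c (Finset.mem_insert_of_mem hc)⟩)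
    obtain ⟨F, hF, hF'⟩ := hd a (Finset.mem_insert_self _ _)
    have hex : ∃ c ∈ Finset.range (q + 1), c ∉ F.image κ := by
      by_contra hne
      push Not at hne
      have h3 := Finset.card_le_card (show Finset.range (q + 1) ⊆ F.image κ from hne)
      have h4 : (F.image κ).card ≤ F.card := Finset.card_image_le
      rw [Finset.card_range] at h3
      omega
    obtain ⟨c, hc, hcF⟩ := hex
    refine ⟨fun b => if b = a then c else κ b, ?_, ?_⟩
    · intro b hb
      by_cases hba : b = a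
      · simp only [hba, if_true]
        exact Finset.mem_range.1 hc
      · simp only [hba, if_false]
        rcases Finset.mem_insert.1 hb with h | h
        · exact absurd h hba
        · exact h1 b h
    · intro b hb b' hb' hρ
      by_cases hba : b = a
      · by_cases hba' : b' = a
        · subst hba
          subst hba'
          exact absurd hρ (hirr _)
        · simp only [hba, hba', if_true, if_false]
          intro h
          apply hcF
          rw [h]
          subst hba
          exact Finset.mem_image_of_mem _ (hF' b' hb' hρ)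
      · by_cases hba' : b' = a
        · simp only [hba, hba', if_true, if_false]
          intro h
          apply hcF
          rw [← h]
          subst hba'
          exact Finset.mem_image_of_mem _ (hF' b hb (hsym _ _ hρ))
        · simp only [hba, hba', if_false]
          rcases Finset.mem_insert.1 hb with h | h
          · exact absurd h hba
          rcases Finset.mem_insert.1 hb' with h' | h'
          · exact absurd h' hba'
          exact h2 b h b' h' hρ

/-- The exceptional part of `W`. -/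
def Ex (w M n : ℕ) (A : Set V) (i : ℕ) (W : Set V) : Set V :=
  {y | y ∈ A ∧ y ∈ W ∧ ∃ W' ∈ P G w M n A i, y ∈ typ G w W' ∧ ¬ tt G w n W W'}

theorem level_step [Finite V] {w q M n k : ℕ} {A : Set V} (hG : ¬ HalfGraph G n)
    (hk : G.CliqueFree k) (hC : CC G (w + 1) q A) (hM : 2 * q + 1 ≤ M) (hM2 : n + n ≤ M)
    (hM3 : (q + 1) * n ≤ M) (hM4 : n + k ≤ M) (i : ℕ)
    (hP : P G w M n A (i + 1) = ∅) :
    ∃ g : V → ℕ, (∀ x ∈ A, g x < q + 2) ∧
      ∀ j, j < q + 2 → P G w M n {x | x ∈ A ∧ g x = j} i = ∅ := by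
  classical
  have hEx : ∀ W ∈ P G w M n A i, Cov G w M (Ex (G := G) w M n A i W) := by
    intro W hW
    by_contra hc
    have : W ∈ P G w M n A (i + 1) := ⟨hW, hc⟩
    rw [hP] at this
    exact this
  let good : V → Prop := fun y => ∃ W ∈ P G w M n A i, y ∈ W ∧ y ∉ Ex (G := G) w M n A i W
  have hchoice : ∀ y, ∃ W : Set V, good y → W ∈ P G w M n A i ∧ y ∈ W ∧
      y ∉ Ex (G := G) w M n A i W := by
    intro y
    by_cases hy : good y
    · obtain ⟨W, h1, h2, h3⟩ := hy
      exact ⟨W, fun _ => ⟨h1, h2, h3⟩⟩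
    · exact ⟨∅, fun h => absurd h hy⟩
  choose Wf hWf using hchoice
  -- colour the types
  have hfin : {τ : Set V | ∃ W ∈ P G w M n A i, typ G w W = τ}.Finite := Set.toFinite _
  let ρ : Set V → Set V → Prop := fun τ τ' => ∃ W ∈ P G w M n A i, ∃ W' ∈ P G w M n A i,
    typ G w W = τ ∧ typ G w W' = τ' ∧ tt G w n W W'
  have hsym : ∀ a b, ρ a b → ρ b a := by
    rintro a b ⟨W, hW, W', hW', h1, h2, h3⟩
    exact ⟨W', hW', W, hW, h2, h1, tt_symm' hG hM2 hW hW' h3⟩
  have hirr : ∀ a, ¬ ρ a a := by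
    rintro a ⟨W, hW, W', hW', h1, h2, h3⟩
    apply not_tt_self hG hk hM2 hM4 hW
    unfold tt at h3 ⊢
    rw [h2, ← h1] at h3
    exact h3
  obtain ⟨κ, hκ1, hκ2⟩ := degree_color hfin.toFinset ρ hsym hirr q (by
    intro τ hτ
    rw [Set.Finite.mem_toFinset] at hτ
    obtain ⟨W0, hW0, rfl⟩ := hτ
    obtain ⟨F', hF'1, hF'2⟩ := obs2 hG hC hM hM2 hM3 hW0
    refine ⟨F', hF'1, ?_⟩
    rintro τ' _ ⟨W, hW, W', hW', h1, rfl, h3⟩
    apply hF'2 W' (P_subset_zero _ hW')
    have h4 : tt G w n W' W := tt_symm' hG hM2 hW hW' h3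
    have h5 : tt G w n W' W0 := by
      unfold tt at h4 ⊢
      rw [h1] at h4
      exact h4
    exact tt_symm' hG hM2 hW' hW0 h5)
  refine ⟨fun y => if good y then κ (typ G w (Wf y)) else q + 1, ?_, ?_⟩
  · intro x _
    by_cases hx : good x
    · simp only [hx, if_true]
      have := hκ1 (typ G w (Wf x)) (by
        rw [Set.Finite.mem_toFinset]
        exact ⟨Wf x, (hWf x hx).1, rfl⟩)
      omega
    · simp only [hx, if_false]
      omega
  · intro j hj
    rw [Set.eq_empty_iff_forall_notMem]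
    intro W hW
    have hsubA : {x | x ∈ A ∧ (if good x then κ (typ G w (Wf x)) else q + 1) = j} ⊆ A :=
      fun _ h => h.1
    have hWA := P_mono hsubA i hW
    obtain ⟨_, hWr, x, hx, hxW⟩ := P_subset_zero _ hW
    by_cases hjq : j = q + 1
    · apply hWr
      refine (hEx W hWA).mono le_rfl ?_
      rintro y ⟨⟨hyA, hyj⟩, hyW⟩
      by_contra hne
      have hgy : good y := ⟨W, hWA, hyW, hne⟩
      simp only [hgy, if_true] at hyj
      have := hκ1 (typ G w (Wf y)) (by
        rw [Set.Finite.mem_toFinset]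
        exact ⟨Wf y, (hWf y hgy).1, rfl⟩)
      omega
    · obtain ⟨hxA, hxj⟩ := hx
      have hgx : good x := by
        by_contra hne
        simp only [hne, if_false] at hxj
        exact hjq hxj.symm
      simp only [hgx, if_true] at hxj
      obtain ⟨hx1, hx2, hx3⟩ := hWf x hgx
      have htx : tt G w n (Wf x) W := by
        by_contra hne
        exact hx3 ⟨hxA, hx2, W, hWA, hxW, hne⟩
      have htx' : tt G w n W (Wf x) := tt_symm' hG hM2 hx1 hWA htx
      have hcov := tt_cov' hG hM2 hWA hx1 htx'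
      obtain ⟨y, hy, hy2⟩ := exists_avoid hWr (hcov.mono (by omega : n ≤ M) le_rfl)
      obtain ⟨⟨hyA, hyj⟩, hyW⟩ := hy
      have hyt : y ∈ typ G w (Wf x) := by
        by_contra hne
        exact hy2 ⟨hyW, hne⟩
      have hgy : good y := by
        by_contra hne
        simp only [hne, if_false] at hyj
        exact hjq hyj.symm
      simp only [hgy, if_true] at hyj
      obtain ⟨hy1, hy2', hy3⟩ := hWf y hgy
      have hty : tt G w n (Wf y) (Wf x) := by
        by_contra hne
        exact hy3 ⟨hyA, hy2', Wf x, hx1, hyt, hne⟩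
      have := hκ2 (typ G w (Wf y)) (by
          rw [Set.Finite.mem_toFinset]
          exact ⟨Wf y, hy1, rfl⟩) (typ G w (Wf x)) (by
          rw [Set.Finite.mem_toFinset]
          exact ⟨Wf x, hx1, rfl⟩) ⟨Wf y, hy1, Wf x, hx1, rfl, rfl, hty⟩
      exact this (hyj.trans hxj.symm)

theorem CC_down {w q M n : ℕ} {A : Set V} (hC : CC G (w + 1) q A) (hM1 : 1 ≤ M)
    (hP : P G w M n A 0 = ∅) : CC G w (q * M) A := by
  intro x hx
  obtain ⟨F0, h1, h2, h3⟩ := hC x hx
  have hall : ∀ S ∈ F0, Cov G w M (A ∩ S ∩ G.neighborSet x) := by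
    intro S hS
    by_cases hc : Cov G w M (A ∩ S)
    · exact hc.mono le_rfl Set.inter_subset_left
    · have hxS : x ∉ typ G w S := by
        intro hxS
        have : S ∈ P G w M n A 0 := ⟨h2 S hS, hc, x, hx, hxS⟩
        rw [hP] at this
        exact this
      exact (Cov.of_Sm (typ_notMem (h2 S hS) hxS)).mono hM1
        (fun a ha => ⟨ha.1.2, ha.2⟩)
  have hb := Cov.biUnion F0 (fun S => A ∩ S ∩ G.neighborSet x) hall
  refine hb.mono (Nat.mul_le_mul_right _ h1) ?_
  rintro a ⟨haA, hax⟩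
  obtain ⟨S, hS, haS⟩ := h3 a ⟨haA, hax⟩
  exact ⟨S, hS, ⟨haA, haS⟩, hax⟩

end Colour

theorem gs_main (n k N : ℕ) (T : SimpleGraph (Fin (N + 1))) (hT : T.IsTree) :
    ∀ w q : ℕ, ∃ c : ℕ, ∀ (V : Type u) [Finite V] (G : SimpleGraph V),
      ¬ HalfGraph G n → G.CliqueFree k → ¬ Nonempty (T ↪g G) →
      ∀ A : Set V, CC G w q A → Col G A c := by
  intro w
  induction w with
  | zero =>
    intro q
    refine ⟨1, fun V _ G _ _ _ A hC => ⟨fun _ => 0, fun _ _ => Nat.zero_lt_one, ?_⟩⟩
    intro x hx y hy hadj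
    obtain ⟨F, _, h2, h3⟩ := hC x hx
    obtain ⟨U, hU, hyU⟩ := h3 y ⟨hy, hadj⟩
    have := Sm_zero G (h2 U hU)
    rw [this] at hyU
    exact absurd hyU (Set.notMem_empty y)
  | succ w ih =>
    intro q
    obtain ⟨M, hM, hM2, hM3, hM4, hM5, hM1⟩ : ∃ M : ℕ, 2 * q + 1 ≤ M ∧ n + n ≤ M ∧
        (q + 1) * n ≤ M ∧ n + k ≤ M ∧ (N + 1) * (1 + q * n + (n + q * n)) ≤ M ∧ 1 ≤ M :=
      ⟨(2 * q + 1) + (n + n) + (q + 1) * n + (n + k) + (N + 1) * (1 + q * n + (n + q * n)),
        by omega, by omega, by omega, by omega, by omega, by omega⟩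
    obtain ⟨c', hc'⟩ := ih (q * M)
    refine ⟨(q + 2) ^ N * c', fun V _ G hG hk hTG => ?_⟩
    have hlev : ∀ i, ∀ A : Set V, CC G (w + 1) q A → P G w M n A i = ∅ →
        Col G A ((q + 2) ^ i * c') := by
      intro i
      induction i with
      | zero =>
        intro A hC hP
        rw [pow_zero, one_mul]
        exact hc' V G hG hk hTG A (CC_down hC hM1 hP)
      | succ i ihi =>
        intro A hC hP
        obtain ⟨g, hg1, hg2⟩ := level_step hG hk hC hM hM2 hM3 hM4 i hP
        have : (q + 2) ^ (i + 1) * c' = (q + 2) * ((q + 2) ^ i * c') := by ring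
        rw [this]
        refine Col.glue g hg1 (fun j hj => ?_)
        refine ihi _ ?_ (hg2 j hj)
        intro x hx
        exact (hC x hx.1).mono le_rfl (fun a ha => ⟨ha.1.1, ha.2⟩)
    intro A hC
    apply hlev N A hC
    by_contra hne
    have hne' : (P G w M n A (0 + N)).Nonempty := by
      rw [zero_add]
      exact Set.nonempty_iff_ne_empty.2 hne
    obtain ⟨φ, W, h1, h2, _, h4⟩ := embed_tree hG hk hC hM hM2 hM3 hM4 hM5 N (Fin (N + 1)) T hT
      (by simp) (by omega) 0 hne'
    apply hTG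
    refine ⟨⟨⟨φ, ?_⟩, ?_⟩⟩
    · intro a b hab
      by_contra hne3
      have := h2 a b hne3
      rw [← hab] at this
      exact this (h1 a).2.2
    · intro a b
      exact (h4 a b).symm

/-- **Gyarfas-Sumner for edge-stable graphs.** For every tree `T` and all `n, k` there is `c` such
that every finite graph with no induced copy of `T`, no clique of size `k` and no semi-induced
half-graph of order `n` is `c`-colourable. -/
theorem gyarfas_sumner_stable (n k m : ℕ) (T : SimpleGraph (Fin m)) (hT : T.IsTree) :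
    ∃ c : ℕ, ∀ (V : Type u) [Finite V] (G : SimpleGraph V),
      ¬ HalfGraph G n → G.CliqueFree k → ¬ Nonempty (T ↪g G) → G.Colorable c := by
  obtain ⟨N, rfl⟩ : ∃ N, m = N + 1 := by
    rcases m with _ | N
    · obtain ⟨x⟩ := hT.connected.nonempty
      exact x.elim0
    · exact ⟨N, rfl⟩
  obtain ⟨c, hc⟩ := gs_main n k N T hT (ladH (n + (n + 1))) 1
  refine ⟨c, fun V _ G hG hk hTG => ?_⟩
  have hC : CC G (ladH (n + (n + 1))) 1 (Set.univ : Set V) := by
    intro x _
    exact Cov.of_Sm (Sm_mono G (Set.subset_univ _) (Sm_univ_of_not_halfGraph G hG))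
  obtain ⟨f, hf1, hf2⟩ := hc V G hG hk hTG Set.univ hC
  refine ⟨SimpleGraph.Coloring.mk (fun x => (⟨f x, hf1 x (Set.mem_univ _)⟩ : Fin c)) ?_⟩
  intro x y hadj h
  exact hf2 x (Set.mem_univ _) y (Set.mem_univ _) hadj (congrArg Fin.val h)

end Pool.Agent.H367R3
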