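import Pool.Agent.H367R3.GSForest

set_option autoImplicit false

namespace Pool.Agent.H367R3

universe u

theorem ramsey_aux : ∀ s k n : ℕ, k + n = s → ∃ N : ℕ, ∀ (ι : Type u) (R : ι → ι → Prop),
    (∀ x y, R x y → R y x) → ∀ A : Finset ι, N ≤ A.card →
    (∃ t ⊆ A, t.card = k ∧ ∀ x ∈ t, ∀ y ∈ t, x ≠ y → R x y) ∨
    (∃ t ⊆ A, t.card = n ∧ ∀ x ∈ t, ∀ y ∈ t, x ≠ y → ¬ R x y) := by
  intro s
  induction s with
  | zero =>
    intro k n hkn
    have hk : k = 0 := by omega
    subst hk
    exact ⟨0, fun ι R _ A _ => Or.inl ⟨∅, by simp, by simp, by simp⟩⟩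
  | succ s ih =>
    intro k n hkn
    rcases Nat.eq_zero_or_pos k with hk | hk
    · subst hk
      exact ⟨0, fun ι R _ A _ => Or.inl ⟨∅, by simp, by simp, by simp⟩⟩
    rcases Nat.eq_zero_or_pos n with hn | hn
    · subst hn
      exact ⟨0, fun ι R _ A _ => Or.inr ⟨∅, by simp, by simp, by simp⟩⟩
    obtain ⟨k', rfl⟩ : ∃ k', k = k' + 1 := ⟨k - 1, by omega⟩
    obtain ⟨n', rfl⟩ : ∃ n', n = n' + 1 := ⟨n - 1, by omega⟩
    obtain ⟨N1, h1⟩ := ih k' (n' + 1) (by omega)
    obtain ⟨N2, h2⟩ := ih (k' + 1) n' (by omega)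
    refine ⟨N1 + N2 + 1, fun ι R hR A hA => ?_⟩
    classical
    obtain ⟨v, hv⟩ : A.Nonempty := Finset.card_pos.1 (by omega)
    have hcard : (A.erase v).card = A.card - 1 := Finset.card_erase_of_mem hv
    have hsplit := Finset.card_filter_add_card_filter_not (s := A.erase v) (fun x => R v x)
    rcases le_or_gt N1 ((A.erase v).filter (fun x => R v x)).card with h3 | h3
    · rcases h1 ι R hR _ h3 with ⟨t, ht, htc, htR⟩ | ⟨t, ht, htc, htR⟩
      · left
        have hvt : v ∉ t := by
          intro h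
          have := ht h
          rw [Finset.mem_filter, Finset.mem_erase] at this
          exact this.1.1 rfl
        refine ⟨insert v t, ?_, by rw [Finset.card_insert_of_notMem hvt, htc], ?_⟩
        · intro x hx
          rcases Finset.mem_insert.1 hx with rfl | hx
          · exact hv
          · exact Finset.mem_of_mem_erase (Finset.mem_filter.1 (ht hx)).1
        · intro x hx y hy hxy
          rcases Finset.mem_insert.1 hx with hx1 | hx1
          · rw [hx1]
            rcases Finset.mem_insert.1 hy with hy1 | hy1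
            · exact absurd (hx1.trans hy1.symm) hxy
            · exact (Finset.mem_filter.1 (ht hy1)).2
          · rcases Finset.mem_insert.1 hy with hy1 | hy1
            · rw [hy1]
              exact hR _ _ (Finset.mem_filter.1 (ht hx1)).2
            · exact htR x hx1 y hy1 hxy
      · right
        exact ⟨t, fun x hx => Finset.mem_of_mem_erase (Finset.mem_filter.1 (ht hx)).1, htc, htR⟩
    · have h4 : N2 ≤ ((A.erase v).filter (fun x => ¬ R v x)).card := by omega
      rcases h2 ι R hR _ h4 with ⟨t, ht, htc, htR⟩ | ⟨t, ht, htc, htR⟩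
      · left
        exact ⟨t, fun x hx => Finset.mem_of_mem_erase (Finset.mem_filter.1 (ht hx)).1, htc, htR⟩
      · right
        have hvt : v ∉ t := by
          intro h
          have := ht h
          rw [Finset.mem_filter, Finset.mem_erase] at this
          exact this.1.1 rfl
        refine ⟨insert v t, ?_, by rw [Finset.card_insert_of_notMem hvt, htc], ?_⟩
        · intro x hx
          rcases Finset.mem_insert.1 hx with rfl | hx
          · exact hv
          · exact Finset.mem_of_mem_erase (Finset.mem_filter.1 (ht hx)).1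
        · intro x hx y hy hxy
          rcases Finset.mem_insert.1 hx with hx1 | hx1
          · rw [hx1]
            rcases Finset.mem_insert.1 hy with hy1 | hy1
            · exact absurd (hx1.trans hy1.symm) hxy
            · exact (Finset.mem_filter.1 (ht hy1)).2
          · rcases Finset.mem_insert.1 hy with hy1 | hy1
            · rw [hy1]
              exact fun h => (Finset.mem_filter.1 (ht hx1)).2 (hR _ _ h)
            · exact htR x hx1 y hy1 hxy

theorem ramsey (k n : ℕ) : ∃ N : ℕ, ∀ (ι : Type u) (R : ι → ι → Prop),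
    (∀ x y, R x y → R y x) → ∀ A : Finset ι, N ≤ A.card →
    (∃ t ⊆ A, t.card = k ∧ ∀ x ∈ t, ∀ y ∈ t, x ≠ y → R x y) ∨
    (∃ t ⊆ A, t.card = n ∧ ∀ x ∈ t, ∀ y ∈ t, x ≠ y → ¬ R x y) :=
  ramsey_aux (k + n) k n rfl

/-- The half-graph `H_n`: bipartite with sides `a_1, …, a_n` and `b_1, …, b_n`, and `a_i` adjacent
to `b_j` exactly when `i ≤ j`. -/
def halfGraph (n : ℕ) : SimpleGraph (Fin n ⊕ Fin n) where
  Adj x y := (∃ i j, x = Sum.inl i ∧ y = Sum.inr j ∧ i ≤ j) ∨
    (∃ i j, y = Sum.inl i ∧ x = Sum.inr j ∧ i ≤ j)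
  symm := ⟨fun _ _ h => h.symm⟩
  loopless := ⟨by
    rintro x (⟨i, j, h1, h2, _⟩ | ⟨i, j, h1, h2, _⟩)
    · rw [h1] at h2
      cases h2
    · rw [h1] at h2
      cases h2⟩

/-- With bounded clique number, a long semi-induced half-graph contains an induced one. -/
theorem induced_halfGraph (k n : ℕ) : ∃ N : ℕ, ∀ (V : Type u) (G : SimpleGraph V),
    G.CliqueFree k → HalfGraph G N → Nonempty (halfGraph n ↪g G) := by
  obtain ⟨N1, h1⟩ := ramsey.{0} k n
  obtain ⟨N2, h2⟩ := ramsey.{0} k N1
  refine ⟨N2, fun V G hk hH => ?_⟩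
  classical
  obtain ⟨a, b, hab⟩ := hH
  have hainj : Function.Injective a := by
    have main : ∀ i j, i < j → a i ≠ a j := by
      intro i j hij h
      have h3 := (hab i i).2 le_rfl
      rw [h, hab] at h3
      exact absurd h3 (not_le_of_gt hij)
    intro i j h
    rcases lt_trichotomy i j with h3 | h3 | h3
    · exact absurd h (main i j h3)
    · exact h3
    · exact absurd h.symm (main j i h3)
  have hbinj : Function.Injective b := by
    have main : ∀ i j, i < j → b i ≠ b j := by
      intro i j hij h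
      have h3 := (hab j j).2 le_rfl
      rw [← h, hab] at h3
      exact absurd h3 (not_le_of_gt hij)
    intro i j h
    rcases lt_trichotomy i j with h3 | h3 | h3
    · exact absurd h (main i j h3)
    · exact h3
    · exact absurd h.symm (main j i h3)
  have noclique : ∀ (f : Fin N2 → V), Function.Injective f → ∀ t : Finset (Fin N2), t.card = k →
      (∀ x ∈ t, ∀ y ∈ t, x ≠ y → G.Adj (f x) (f y)) → False := by
    intro f hf t htc ht
    apply hk (t.map ⟨f, hf⟩)
    refine ⟨?_, by rw [Finset.card_map, htc]⟩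
    intro x hx y hy hxy
    rw [Finset.mem_coe, Finset.mem_map] at hx hy
    obtain ⟨x', hx', rfl⟩ := hx
    obtain ⟨y', hy', rfl⟩ := hy
    exact ht x' hx' y' hy' (fun h => hxy (by rw [h]))
  obtain ⟨t1, _, ht1c, ht1⟩ : ∃ t ⊆ (Finset.univ : Finset (Fin N2)), t.card = N1 ∧
      ∀ x ∈ t, ∀ y ∈ t, x ≠ y → ¬ G.Adj (a x) (a y) := by
    rcases h2 (Fin N2) (fun x y => G.Adj (a x) (a y)) (fun _ _ h => h.symm) Finset.univ
      (by simp) with ⟨t, _, htc, ht⟩ | h
    · exact absurd (noclique a hainj t htc ht) id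
    · exact h
  obtain ⟨t2, ht2s, ht2c, ht2⟩ : ∃ t ⊆ t1, t.card = n ∧
      ∀ x ∈ t, ∀ y ∈ t, x ≠ y → ¬ G.Adj (b x) (b y) := by
    rcases h1 (Fin N2) (fun x y => G.Adj (b x) (b y)) (fun _ _ h => h.symm) t1
      ht1c.ge with ⟨t, _, htc, ht⟩ | h
    · exact absurd (noclique b hbinj t htc ht) id
    · exact h
  let e := t2.orderEmbOfFin ht2c
  have he2 : ∀ i, e i ∈ t2 := fun i => Finset.orderEmbOfFin_mem t2 ht2c i
  have hbb : ∀ i j, ¬ G.Adj (b (e i)) (b (e j)) := by
    intro i j
    by_cases hij : e i = e j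
    · rw [hij]
      exact G.irrefl
    · exact ht2 _ (he2 i) _ (he2 j) hij
  have haa : ∀ i j, ¬ G.Adj (a (e i)) (a (e j)) := by
    intro i j
    by_cases hij : e i = e j
    · rw [hij]
      exact G.irrefl
    · exact ht1 _ (ht2s (he2 i)) _ (ht2s (he2 j)) hij
  have hne : ∀ i j, a (e i) ≠ b (e j) := by
    intro i j h
    have h3 := (hab (e i) (e i)).2 le_rfl
    rw [h] at h3
    exact hbb j i h3
  refine ⟨⟨⟨fun x => Sum.elim (fun i => a (e i)) (fun j => b (e j)) x, ?_⟩, ?_⟩⟩
  · rintro (i | i) (j | j) h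
    · exact congrArg Sum.inl (e.injective (hainj h))
    · exact absurd h (hne i j)
    · exact absurd h.symm (hne j i)
    · exact congrArg Sum.inr (e.injective (hbinj h))
  · rintro (i | i) (j | j)
    · constructor
      · intro h
        exact absurd h (haa i j)
      · rintro (⟨i', j', _, h4, _⟩ | ⟨i', j', _, h4, _⟩) <;> cases h4
    · show G.Adj (a (e i)) (b (e j)) ↔ _
      rw [hab, e.le_iff_le]
      constructor
      · intro h
        exact Or.inl ⟨i, j, rfl, rfl, h⟩
      · rintro (⟨i', j', h3, h4, h5⟩ | ⟨i', j', h3, _, _⟩)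
        · cases h3
          cases h4
          exact h5
        · cases h3
    · show G.Adj (b (e i)) (a (e j)) ↔ _
      rw [SimpleGraph.adj_comm, hab, e.le_iff_le]
      constructor
      · intro h
        exact Or.inr ⟨j, i, rfl, rfl, h⟩
      · rintro (⟨i', j', h3, _, _⟩ | ⟨i', j', h3, h4, h5⟩)
        · cases h3
        · cases h3
          cases h4
          exact h5
    · constructor
      · intro h
        exact absurd h (hbb i j)
      · rintro (⟨i', j', h3, _, _⟩ | ⟨i', j', h3, _, _⟩) <;> cases h3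

/-- **Gyarfas-Sumner for graphs without an induced half-graph.** -/
theorem gyarfas_sumner_induced_halfGraph (n m : ℕ) (F : SimpleGraph (Fin m)) (hF : F.IsAcyclic) :
    ∃ f : ℕ → ℕ, ∀ (V : Type u) [Finite V] (G : SimpleGraph V),
      ¬ Nonempty (halfGraph n ↪g G) → ¬ Nonempty (F ↪g G) →
        G.chromaticNumber ≤ f G.cliqueNum := by
  obtain ⟨T, hT, ⟨e⟩⟩ := forest_in_tree F hF
  have hex : ∀ k : ℕ, ∃ c : ℕ, ∀ (V : Type u) [Finite V] (G : SimpleGraph V),
      ¬ Nonempty (halfGraph n ↪g G) → G.CliqueFree (k + 1) → ¬ Nonempty (T ↪g G) →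
      G.Colorable c := by
    intro k
    obtain ⟨N, hN⟩ := induced_halfGraph.{u} (k + 1) n
    obtain ⟨c, hc⟩ := gyarfas_sumner_stable.{u} N (k + 1) (m + 1) T hT
    exact ⟨c, fun V _ G h1 h2 h3 => hc V G (fun h => h1 (hN V G h2 h)) h2 h3⟩
  choose f hf using hex
  refine ⟨f, fun V _ G hG hFG => ?_⟩
  apply SimpleGraph.Colorable.chromaticNumber_le
  apply hf _ V G hG
  · intro s hs
    have := hs.isClique.card_le_cliqueNum
    have h2 := hs.card_eq
    omega
  · rintro ⟨g⟩
    exact hFG ⟨e.trans g⟩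

end Pool.Agent.H367R3
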